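import Mathlib

/-!
# Cut and choose games and nonreflecting stationary sets: the core argument

`Z` is a well-order in which all countable subsets are bounded and which has no maximum. A countably
closed system of positions decides statements about a generic element of `Z` above all elements of
`Z`. If `S` is a stationary set of points of countable cofinality which does not reflect, there is
no such system.
-/

set_option autoImplicit false

namespace Pool.Agent.W869.CC

open Cardinal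

section
variable {Z : Type} [LinearOrder Z] [WellFoundedLT Z] [Nonempty Z]

/-- `β` has countable cofinality (or is a successor): `c` is cofinal below `β`. -/
def T1 (β : Z) : Prop :=
  ∃ c : ℕ → Z, (∀ n, c n < β) ∧ ∀ i, (∀ n, c n ≤ i) → ∀ z, i < z → β ≤ z

/-- words in the operations -/
abbrev Word (Z : Type) := List (ℕ ⊕ Z)

/-- evaluation of words -/
def ev (c : ℕ → Z → Z) (h : Z → Z → Z) : Word Z → Z → Z
  | [], x => x
  | Sum.inl n :: w, x => c n (ev c h w x)
  | Sum.inr ζ :: w, x => h ζ (ev c h w x)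

/-- formulas -/
inductive Form (Z : Type)
  | le (w : Word Z) (i : Z) : Form Z
  | lt (w w' : Word Z) : Form Z
  | t1 (w : Word Z) : Form Z

/-- the meaning of the formulas -/
def Form.sat (c : ℕ → Z → Z) (h : Z → Z → Z) : Form Z → Z → Prop
  | Form.le w i, x => ev c h w x ≤ i
  | Form.lt w w', x => ev c h w x < ev c h w' x
  | Form.t1 w, x => T1 (ev c h w x)

/-- the set of the elements satisfying the formula (or its negation) -/
def Dset (c : ℕ → Z → Z) (h : Z → Z → Z) (a : Bool × Form Z) : Set Z :=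
  {x | Form.sat c h a.2 x ↔ a.1 = true}

theorem core {c : ℕ → Z → Z} {h : Z → Z → Z} {Dc : Z → Set Z} {S : Set Z}
    (hnomax : ∀ z : Z, ∃ z', z < z')
    (hbd : ∀ f : ℕ → Z, ∃ b, ∀ n, f n ≤ b)
    (hc : ∀ β : Z, T1 β → (∀ n, c n β < β) ∧ ∀ i, (∀ n, c n β ≤ i) → ∀ z, i < z → β ≤ z)
    (hD1 : ∀ β : Z, ¬ T1 β → ∀ ζ < β, h ζ β ∈ Dc β ∧ ζ < h ζ β ∧ h ζ β < β)
    (hD2 : ∀ β : Z, ¬ T1 β → ∀ α < β, (∃ δ, δ < α) → (∀ δ < α, ∃ d ∈ Dc β, δ < d ∧ d < α) →
      α ∈ Dc β)
    (hD3 : ∀ β : Z, ¬ T1 β → Disjoint (Dc β) S)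
    (hSω : ∀ α ∈ S, ∃ f : ℕ → Z, (∀ n, f n < α) ∧ ∀ δ < α, ∃ n, δ < f n)
    (hS : ∀ F : List Z → Z, ∃ α ∈ S, ∀ s : List Z, (∀ x ∈ s, x < α) → F s < α)
    {Q : Type*} [Preorder Q] (root : Q) (frc : Q → Bool × Form Z → Prop)
    (H1 : ∀ (q : Q) (φ : Form Z), ∃ q' ≤ q, frc q' (true, φ) ∨ frc q' (false, φ))
    (H2 : ∀ (q q' : Q) (a : Bool × Form Z), q' ≤ q → frc q a → frc q' a)
    (H3 : ∀ (q : Q) (s : Set (Bool × Form Z)), s.Countable → (∀ a ∈ s, frc q a) →
      ∃ x, ∀ a ∈ s, x ∈ Dset c h a)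
    (H4 : ∀ (q : Q) (i : Z), ¬ frc q (true, Form.le [] i))
    (H5 : ∀ p : ℕ → Q, (∀ n, p (n + 1) ≤ p n) → ∃ q, ∀ n, q ≤ p n) : False := by
  classical
  -- two or three formulas
  have H3' : ∀ (q : Q) (a b : Bool × Form Z), frc q a → frc q b →
      ∃ x, x ∈ Dset c h a ∧ x ∈ Dset c h b := by
    intro q a b ha hb
    obtain ⟨x, hx⟩ := H3 q {a, b} (Set.to_countable _) (by
      intro d hd
      rcases hd with rfl | rfl
      · exact ha
      · exact hb)
    exact ⟨x, hx a (by simp), hx b (by simp)⟩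
  have H3'' : ∀ (q : Q) (a b d : Bool × Form Z), frc q a → frc q b → frc q d →
      ∃ x, x ∈ Dset c h a ∧ x ∈ Dset c h b ∧ x ∈ Dset c h d := by
    intro q a b d ha hb hd
    obtain ⟨x, hx⟩ := H3 q {a, b, d} (Set.to_countable _) (by
      intro e he
      rcases he with rfl | rfl | rfl
      · exact ha
      · exact hb
      · exact hd)
    exact ⟨x, hx a (by simp), hx b (by simp), hx d (by simp)⟩
  -- large words
  let Large : Q → Word Z → Prop := fun q w => ∀ q' ≤ q, ∀ i, ¬ frc q' (true, Form.le w i)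
  have hLmono : ∀ q q' w, q' ≤ q → Large q w → Large q' w := fun q q' w h1 h2 q'' h3 i =>
    h2 q'' (h3.trans h1) i
  -- a large word can be forced above each bound
  have hLgt : ∀ q w, Large q w → ∀ i, ∃ q' ≤ q, frc q' (false, Form.le w i) := by
    intro q w hL i
    obtain ⟨q', h1, h2 | h2⟩ := H1 q (Form.le w i)
    · exact absurd h2 (hL q' h1 i)
    · exact ⟨q', h1, h2⟩
  -- a minimal large word
  obtain ⟨q0, w, hL0, hmin⟩ : ∃ q w, Large q w ∧ ∀ q' ≤ q, ∀ w',
      frc q' (true, Form.lt w' w) → ¬ Large q' w' := by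
    by_contra hcon
    push Not at hcon
    have hstep : ∀ p : {p : Q × Word Z // Large p.1 p.2}, ∃ p' : {p : Q × Word Z // Large p.1 p.2},
        p'.1.1 ≤ p.1.1 ∧ frc p'.1.1 (true, Form.lt p'.1.2 p.1.2) := by
      rintro ⟨⟨q, w⟩, hL⟩
      obtain ⟨q', h1, w', h2, h3⟩ := hcon q w hL
      exact ⟨⟨(q', w'), h3⟩, h1, h2⟩
    choose nx hnx using hstep
    let p : ℕ → {p : Q × Word Z // Large p.1 p.2} := fun n =>
      Nat.rec ⟨(root, []), fun q' _ i => H4 q' i⟩ (fun _ p => nx p) n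
    have hp : ∀ n, p (n + 1) = nx (p n) := fun n => rfl
    obtain ⟨q, hq⟩ := H5 (fun n => (p n).1.1) fun n => by
      show (p (n + 1)).1.1 ≤ (p n).1.1
      rw [hp]; exact (hnx (p n)).1
    have hfrc : ∀ n, frc q (true, Form.lt (p (n + 1)).1.2 (p n).1.2) := fun n =>
      H2 _ _ _ (hq (n + 1)) (by rw [hp]; exact (hnx (p n)).2)
    obtain ⟨x, hx⟩ := H3 q (Set.range fun n => (true, Form.lt (p (n + 1)).1.2 (p n).1.2))
      (Set.countable_range _) (by
        rintro _ ⟨n, rfl⟩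
        exact hfrc n)
    have hdec : ∀ n, ev c h (p (n + 1)).1.2 x < ev c h (p n).1.2 x := by
      intro n
      have := hx _ ⟨n, rfl⟩
      simpa [Dset, Form.sat] using this
    obtain ⟨n, hn⟩ := WellFounded.not_rel_apply_succ (r := fun a b : Z => a < b)
      (fun n => ev c h (p n).1.2 x)
    exact hn (hdec n)
  -- consequences of minimality
  have hmin' : ∀ q ≤ q0, ∀ w', frc q (true, Form.lt w' w) → ∃ q' ≤ q, ∃ i,
      frc q' (true, Form.le w' i) := by
    intro q hq w' hf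
    have h1 := hmin q hq w' hf
    simp only [Large] at h1
    push Not at h1
    exact h1
  obtain ⟨q1, hq1, hT | hT⟩ := H1 q0 (Form.t1 w)
  · -- countable cofinality
    have hstep : ∀ (n : ℕ) (q : {q : Q // q ≤ q1}), ∃ p : {q : Q // q ≤ q1} × Z,
        p.1.1 ≤ q.1 ∧ frc p.1.1 (true, Form.le (Sum.inl n :: w) p.2) := by
      rintro n ⟨q, hq⟩
      obtain ⟨q', h1, h2 | h2⟩ := H1 q (Form.lt (Sum.inl n :: w) w)
      · obtain ⟨q'', h3, i, h4⟩ := hmin' q' (h1.trans (hq.trans hq1)) _ h2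
        exact ⟨(⟨q'', h3.trans (h1.trans hq)⟩, i), h3.trans h1, h4⟩
      · exfalso
        obtain ⟨x, hx1, hx2⟩ := H3' q' _ _ (H2 _ _ _ (h1.trans hq) hT) h2
        simp only [Dset, Form.sat, Set.mem_setOf_eq, ev, iff_true, Bool.false_eq_true,
          iff_false] at hx1 hx2
        exact hx2 ((hc _ hx1).1 n)
    choose nx hnx using hstep
    let p : ℕ → {q : Q // q ≤ q1} := fun n => Nat.rec ⟨q1, le_rfl⟩ (fun n q => (nx n q).1) n
    have hp : ∀ n, p (n + 1) = (nx n (p n)).1 := fun n => rfl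
    obtain ⟨q, hq⟩ := H5 (fun n => (p n).1) fun n => by
      show (p (n + 1)).1 ≤ (p n).1
      rw [hp]; exact (hnx n (p n)).1
    obtain ⟨b, hb⟩ := hbd fun n => (nx n (p n)).2
    obtain ⟨z, hz⟩ := hnomax b
    have hqq1 : q ≤ q1 := (hq 0).trans (p 0).2
    obtain ⟨q', h1, h2⟩ := hLgt q w (hLmono _ _ _ (hqq1.trans hq1) hL0) z
    obtain ⟨x, hx⟩ := H3 q' ({(true, Form.t1 w), (false, Form.le w z)} ∪
      Set.range fun n => (true, Form.le (Sum.inl n :: w) (nx n (p n)).2))
      ((Set.to_countable _).union (Set.countable_range _)) (by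
        rintro a ((rfl | rfl) | ⟨n, rfl⟩)
        · exact H2 _ _ _ (h1.trans hqq1) hT
        · exact h2
        · refine H2 _ _ _ (h1.trans (hq (n + 1))) ?_
          rw [hp]; exact (hnx n (p n)).2)
    have hx1 := hx (true, Form.t1 w) (by simp)
    have hx2 := hx (false, Form.le w z) (by simp)
    have hx3 : ∀ n, c n (ev c h w x) ≤ (nx n (p n)).2 := by
      intro n
      have := hx (true, Form.le (Sum.inl n :: w) (nx n (p n)).2) (Or.inr ⟨n, rfl⟩)
      simpa [Dset, Form.sat, ev] using this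
    simp only [Dset, Form.sat, Set.mem_setOf_eq, iff_true, Bool.false_eq_true,
          iff_false] at hx1 hx2
    exact hx2 ((hc _ hx1).2 b (fun n => (hx3 n).trans (hb n)) z hz)
  · -- uncountable cofinality
    have hstep : ∀ (q : {q : Q // q ≤ q1}) (ζ : Z), ∃ p : {q : Q // q ≤ q1} × Z,
        p.1.1 ≤ q.1 ∧ frc p.1.1 (true, Form.le (Sum.inr ζ :: w) p.2) := by
      rintro ⟨q, hq⟩ ζ
      obtain ⟨q', h1, h2 | h2⟩ := H1 q (Form.lt (Sum.inr ζ :: w) w)
      · obtain ⟨q'', h3, i, h4⟩ := hmin' q' (h1.trans (hq.trans hq1)) _ h2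
        exact ⟨(⟨q'', h3.trans (h1.trans hq)⟩, i), h3.trans h1, h4⟩
      · exfalso
        obtain ⟨q'', h3, h4⟩ := hLgt q' w (hLmono _ _ _ (h1.trans (hq.trans hq1)) hL0) ζ
        obtain ⟨x, hx1, hx2, hx3⟩ := H3'' q'' _ _ _ (H2 _ _ _ (h3.trans (h1.trans hq)) hT)
          (H2 _ _ _ h3 h2) h4
        simp only [Dset, Form.sat, Set.mem_setOf_eq, ev, Bool.false_eq_true,
          iff_false] at hx1 hx2 hx3
        exact hx2 (hD1 _ hx1 ζ (not_le.1 hx3)).2.2
    choose nx hnx using hstep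
    have hup : ∀ z : Z, ∃ z', z < z' := hnomax
    choose up hup' using hup
    let st : List Z → {q : Q // q ≤ q1} × Z := fun s =>
      List.rec (⟨q1, le_rfl⟩, Classical.arbitrary Z) (fun α _ p =>
        ((nx p.1 (max p.2 α)).1, up (max (nx p.1 (max p.2 α)).2 (max p.2 α)))) s
    have hst : ∀ α s, st (α :: s) = ((nx (st s).1 (max (st s).2 α)).1,
        up (max (nx (st s).1 (max (st s).2 α)).2 (max (st s).2 α))) := fun α s => rfl
    obtain ⟨α, hαS, hα⟩ := hS fun s => (st s).2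
    obtain ⟨f, hf1, hf2⟩ := hSω α hαS
    let s : ℕ → List Z := fun n => Nat.rec [] (fun n s => f n :: s) n
    have hs : ∀ n, s (n + 1) = f n :: s n := fun n => rfl
    have hsα : ∀ n, ∀ x ∈ s n, x < α := by
      intro n
      induction n with
      | zero => intro x hx; exact absurd hx (by simp [s])
      | succ n ih =>
        intro x hx
        rw [hs] at hx
        rcases List.mem_cons.1 hx with rfl | hx
        · exact hf1 n
        · exact ih x hx
    let ζ : ℕ → Z := fun n => max (st (s n)).2 (f n)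
    let i : ℕ → Z := fun n => (nx (st (s n)).1 (ζ n)).2
    have hζ : ∀ n, (st (s (n + 1))).2 = up (max (i n) (ζ n)) := fun n => by
      rw [hs, hst]
    have hq' : ∀ n, (st (s (n + 1))).1 = (nx (st (s n)).1 (ζ n)).1 := fun n => by
      rw [hs, hst]
    have hlt : ∀ n, (st (s n)).2 < α := fun n => hα (s n) (hsα n)
    have hilt : ∀ n, i n < α := by
      intro n
      have h1 := hlt (n + 1)
      rw [hζ] at h1
      exact (le_max_left _ _).trans_lt ((hup' _).trans h1)
    obtain ⟨q, hq⟩ := H5 (fun n => (st (s n)).1.1) fun n => by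
      show (st (s (n + 1))).1.1 ≤ (st (s n)).1.1
      rw [hq']; exact (hnx _ _).1
    have hqq1 : q ≤ q1 := (hq 0).trans (st (s 0)).1.2
    obtain ⟨q', h1, h2⟩ := hLgt q w (hLmono _ _ _ (hqq1.trans hq1) hL0) α
    obtain ⟨x, hx⟩ := H3 q' ({(false, Form.t1 w), (false, Form.le w α)} ∪
      Set.range fun n => (true, Form.le (Sum.inr (ζ n) :: w) (i n)))
      ((Set.to_countable _).union (Set.countable_range _)) (by
        rintro a ((rfl | rfl) | ⟨n, rfl⟩)
        · exact H2 _ _ _ (h1.trans hqq1) hT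
        · exact h2
        · refine H2 _ _ _ (h1.trans (hq (n + 1))) ?_
          rw [hq']; exact (hnx _ _).2)
    have hx1 := hx (false, Form.t1 w) (by simp)
    have hx2 := hx (false, Form.le w α) (by simp)
    have hx3 : ∀ n, h (ζ n) (ev c h w x) ≤ i n := by
      intro n
      have := hx (true, Form.le (Sum.inr (ζ n) :: w) (i n)) (Or.inr ⟨n, rfl⟩)
      simpa [Dset, Form.sat, ev] using this
    simp only [Dset, Form.sat, Set.mem_setOf_eq, Bool.false_eq_true, iff_false] at hx1 hx2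
    have hζα : ∀ n, ζ n < α := fun n => max_lt (hlt n) (hf1 n)
    have hβ := not_le.1 hx2
    have hαD : α ∈ Dc (ev c h w x) := by
      refine hD2 _ hx1 α hβ ⟨f 0, hf1 0⟩ fun δ hδ => ?_
      obtain ⟨n, hn⟩ := hf2 δ hδ
      obtain ⟨g1, g2, g3⟩ := hD1 _ hx1 (ζ n) ((hζα n).trans hβ)
      exact ⟨_, g1, (hn.trans_le (le_max_right _ _)).trans g2, (hx3 n).trans_lt (hilt n)⟩
    exact Set.disjoint_left.1 (hD3 _ hx1) hαD hαS

end

end Pool.Agent.W869.CC
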