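import Mathlib

/-!
# Cut and choose games with ideals, measurable cardinals, nonreflecting stationary sets
-/

set_option autoImplicit false

namespace Pool.Agent.W869.CC

open Cardinal

/-- `κ` is a measurable cardinal: it is uncountable, and there is a nonprincipal ultrafilter on
`κ` closed under intersections of fewer than `κ` of its members. -/
def IsMeasurable (κ : Cardinal.{0}) : Prop :=
  ℵ₀ < κ ∧ ∃ U : Ultrafilter κ.ord.ToType, (∀ x, {x} ∉ U) ∧
    ∀ F : Set (Set κ.ord.ToType), #F < κ → (∀ X ∈ F, X ∈ U) → ⋂₀ F ∈ U

/-- `S` is a stationary set, all its points have countable cofinality, and it does not reflect: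
`S ∩ β` is not stationary in `β`, for all `β` of uncountable cofinality. -/
structure Nonreflecting {Z : Type} [LinearOrder Z] (S : Set Z) : Prop where
  stationary : IsStationary S
  cof : ∀ α ∈ S, Order.cof (Set.Iio α) = ℵ₀
  nonreflecting : ∀ β : Z, ℵ₀ < Order.cof (Set.Iio β) →
    ¬ IsStationary {x : Set.Iio β | (x : Z) ∈ S}

/-- `I` is a proper ideal on `κ` which is closed under unions of fewer than `κ` of its members and
contains the bounded sets. -/
structure IsIdeal (κ : Cardinal.{0}) (I : Set (Set κ.ord.ToType)) : Prop where
  down : ∀ X ∈ I, ∀ Y ⊆ X, Y ∈ I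
  union : ∀ F : Set (Set κ.ord.ToType), #F < κ → (∀ X ∈ F, X ∈ I) → ⋃₀ F ∈ I
  bounded : ∀ X : Set κ.ord.ToType, BddAbove X → X ∈ I
  proper : Set.univ ∉ I

/-- A strategy for Choose: at stage `α` it looks at the sets `A β`, `β ≤ α`, offered by Cut so
far (they and the strategy determine all the earlier choices), and tells whether Choose takes the
piece `A α` (`true`) or the other piece (`false`). -/
def Strategy (K : Type) : Type 1 :=
  (α : Ordinal.{0}) → ((β : Ordinal.{0}) → β ≤ α → Set K) → Bool

/-- `A`, `X` is a run of the game on `K` of length `γ` in which Choose follows `σ`. The set `X α` is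
the current set before stage `α`. At stage `α` Cut splits `X α` into the two pieces `A α` and
`X α \ A α`, and `X (α + 1)` is the piece taken by Choose. At limits one takes intersections. -/
structure IsRun {K : Type} (σ : Strategy K) (γ : Ordinal.{0}) (A X : Ordinal.{0} → Set K) :
    Prop where
  start : X 0 = Set.univ
  cut : ∀ α < γ, A α ⊆ X α
  pick : ∀ α < γ, X (Order.succ α) = if σ α (fun β _ => A β) = true then A α else X α \ A α
  limit : ∀ α ≤ γ, Order.IsSuccLimit α → X α = ⋂ β : Set.Iio α, X β

/-- Choose has a winning strategy in the game of length `γ` on `K` with the ideal `I`: at the end of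
each run in which Choose follows the strategy, the current set is not in `I`. -/
def ChooseWins {K : Type} (I : Set (Set K)) (γ : Ordinal.{0}) : Prop :=
  ∃ σ : Strategy K, ∀ A X : Ordinal.{0} → Set K, IsRun σ γ A X → X γ ∉ I

end Pool.Agent.W869.CC
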