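import Pool.Agent.W869.CC.Game

/-!
# Measurable cardinals
-/

set_option autoImplicit false

namespace Pool.Agent.W869.CC

open Cardinal

theorem card_Iic_lt {c : Cardinal.{0}} (hc : ℵ₀ ≤ c) (i : c.ord.ToType) : #(Set.Iic i) < c := by
  have : Set.Iic i ⊆ Set.Iio i ∪ {i} := by
    intro x hx
    rcases lt_or_eq_of_le (Set.mem_Iic.1 hx) with h | h
    · exact Or.inl h
    · exact Or.inr h
  refine lt_of_le_of_lt (Cardinal.mk_le_mk_of_subset this) ?_
  refine lt_of_le_of_lt (Cardinal.mk_union_le _ _) ?_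
  refine Cardinal.add_lt_of_lt hc (card_Iio_lt i) ?_
  rw [Cardinal.mk_singleton]
  exact (Cardinal.one_lt_aleph0).trans_le hc

section
variable {κ : Cardinal.{0}} {U : Ultrafilter κ.ord.ToType}

theorem compl_mem_of_small (h1 : ∀ x, {x} ∉ U)
    (h2 : ∀ F : Set (Set κ.ord.ToType), #F < κ → (∀ X ∈ F, X ∈ U) → ⋂₀ F ∈ U)
    (N : Set κ.ord.ToType) (hN : #N < κ) : Nᶜ ∈ U := by
  have h3 := h2 ((fun x => {x}ᶜ) '' N) (Cardinal.mk_image_le.trans_lt hN) (by
    rintro _ ⟨x, -, rfl⟩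
    exact Ultrafilter.compl_mem_iff_notMem.2 (h1 x))
  refine Filter.mem_of_superset h3 fun y hy hyN => ?_
  exact hy _ ⟨y, hyN, rfl⟩ rfl

theorem IsMeasurable.isInaccessible (h : IsMeasurable κ) : κ.IsInaccessible := by
  classical
  obtain ⟨h0, U, h1, h2⟩ := h
  refine ⟨h0, ?_, ?_⟩
  · by_contra hcon
    rw [not_le] at hcon
    obtain ⟨s, hs, hs'⟩ := Order.exists_cof_eq κ.ord.ToType
    rw [Ordinal.cof_toType] at hs'
    have h3 := h2 ((fun x => (Set.Iic x)ᶜ) '' s)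
      (Cardinal.mk_image_le.trans_lt (hs'.trans_lt hcon)) (by
        rintro _ ⟨x, -, rfl⟩
        exact compl_mem_of_small h1 h2 _ (card_Iic_lt h0.le x))
    obtain ⟨y, hy⟩ := U.nonempty_of_mem h3
    obtain ⟨x, hx, hyx⟩ := hs y
    exact hy _ ⟨x, hx, rfl⟩ hyx
  · intro x hx
    by_contra hcon
    rw [not_lt] at hcon
    obtain ⟨f⟩ : Nonempty (κ.ord.ToType ↪ Set x.out) := by
      rw [← Cardinal.le_def, Cardinal.mk_set, mk_ord_toType, Cardinal.mk_out]
      exact hcon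
    let E : Set x.out := {α | {ξ | α ∈ f ξ} ∈ U}
    have h3 := h2 (Set.range fun α : x.out => {ξ | α ∈ f ξ ↔ α ∈ E}) (by
        refine Cardinal.mk_range_le.trans_lt ?_
        rw [Cardinal.mk_out]; exact hx) (by
      rintro _ ⟨α, rfl⟩
      by_cases hα : α ∈ E
      · have : {ξ | α ∈ f ξ} ∈ U := hα
        exact Filter.mem_of_superset this fun ξ hξ => ⟨fun _ => hα, fun _ => hξ⟩
      · have : {ξ | α ∈ f ξ}ᶜ ∈ U := Ultrafilter.compl_mem_iff_notMem.2 hα
        exact Filter.mem_of_superset this fun ξ hξ => ⟨fun h => absurd h hξ, fun h => absurd h hα⟩)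
    obtain ⟨ξ, hξ⟩ := U.nonempty_of_mem h3
    refine h1 ξ (Filter.mem_of_superset h3 fun η hη => ?_)
    refine f.injective (Set.ext fun α => ?_)
    exact (hη _ ⟨α, rfl⟩).trans (hξ _ ⟨α, rfl⟩).symm

/-- the dual ideal of a measure -/
theorem isIdeal_dual (h0 : ℵ₀ < κ) (h1 : ∀ x, {x} ∉ U)
    (h2 : ∀ F : Set (Set κ.ord.ToType), #F < κ → (∀ X ∈ F, X ∈ U) → ⋂₀ F ∈ U) :
    IsIdeal κ {X | X ∉ U} where
  down X hX Y hY h := hX (Filter.mem_of_superset h hY)
  union F hF hX := by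
    have h3 := h2 (compl '' F) (Cardinal.mk_image_le.trans_lt hF) (by
      rintro _ ⟨X, hX', rfl⟩
      exact Ultrafilter.compl_mem_iff_notMem.2 (hX X hX'))
    rw [← Set.compl_sUnion] at h3
    exact Ultrafilter.compl_mem_iff_notMem.1 h3
  bounded X hX := by
    obtain ⟨b, hb⟩ := hX
    have h3 : #X < κ := (Cardinal.mk_le_mk_of_subset (fun x hx => hb hx)).trans_lt
      (card_Iic_lt h0.le b)
    exact Ultrafilter.compl_mem_iff_notMem.1 (compl_mem_of_small h1 h2 X h3)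
  proper h := h Filter.univ_mem

theorem chooseWins_dual
    (h2 : ∀ F : Set (Set κ.ord.ToType), #F < κ → (∀ X ∈ F, X ∈ U) → ⋂₀ F ∈ U)
    {γ : Ordinal.{0}} (hγ : γ < κ.ord) : ChooseWins {X | X ∉ U} γ := by
  classical
  rw [chooseWins_iff]
  refine ⟨fun α A => decide (A α le_rfl ∈ U), fun A _ h => h ?_⟩
  have h3 := h2 ((fun β => {x | x ∈ A β ↔ A β ∈ U}) '' Set.Iio γ) (by
    have h4 := Cardinal.mk_image_le_lift (f := fun β => {x | x ∈ A β ↔ A β ∈ U}) (s := Set.Iio γ)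
    rw [Cardinal.mk_Iio_ordinal] at h4
    rw [Cardinal.lift_lift] at h4
    have h5 := Cardinal.lift_le.1 h4
    exact h5.trans_lt (Cardinal.lt_ord.1 hγ)) (by
    rintro _ ⟨β, -, rfl⟩
    by_cases hβ : A β ∈ U
    · exact Filter.mem_of_superset hβ fun ξ hξ => ⟨fun _ => hβ, fun _ => hξ⟩
    · have : (A β)ᶜ ∈ U := Ultrafilter.compl_mem_iff_notMem.2 hβ
      exact Filter.mem_of_superset this fun ξ hξ => ⟨fun h => absurd h hξ, fun h => absurd h hβ⟩)
  refine Filter.mem_of_superset h3 fun x hx β hβ => ?_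
  rw [decide_eq_true_iff]
  exact hx _ ⟨β, hβ, rfl⟩

end

end Pool.Agent.W869.CC
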