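import Mathlib

/-!
# Independent families on an inaccessible cardinal
-/

set_option autoImplicit false

namespace Pool.Agent.W869.CC

open Cardinal

/-- small subsets of a regular cardinal are bounded -/
theorem exists_bound {c : Cardinal.{0}} (hc : c.IsRegular) (s : Set c.ord.ToType) (hs : #s < c) :
    ∃ b, ∀ a ∈ s, a < b := by
  by_contra hcon
  have h1 : IsCofinal s := by
    by_contra h2
    exact hcon (not_isCofinal_iff.1 h2)
  have h2 := Order.cof_le h1
  rw [Ordinal.cof_toType, hc.cof_ord] at h2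
  exact absurd hs (not_lt.2 h2)

theorem card_Iio_lt {c : Cardinal.{0}} (i : c.ord.ToType) : #(Set.Iio i) < c := by
  simpa using mk_Iio_lt i

theorem exists_gt {c : Cardinal.{0}} (hc : c.IsRegular) (z : c.ord.ToType) : ∃ z', z < z' := by
  obtain ⟨b, hb⟩ := exists_bound hc {z} (by
    rw [Cardinal.mk_singleton]
    exact (Cardinal.one_lt_aleph0).trans_le hc.aleph0_le)
  exact ⟨b, hb z rfl⟩

/-- **Hausdorff**: independent families. -/
theorem exists_indep {κ : Cardinal.{0}} (hκ : κ.IsInaccessible) (Idx : Type)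
    (hIdx : #Idx ≤ 2 ^ κ) : ∃ B : Idx → Set κ.ord.ToType, ∀ A : Set Idx, #A < κ →
      ∀ E : Set Idx, κ ≤ #{ξ : κ.ord.ToType | ∀ a ∈ A, (ξ ∈ B a ↔ a ∈ E)} := by
  classical
  have hreg := hκ.isRegular
  have hinf := hreg.aleph0_le
  let K := κ.ord.ToType
  have hK : #K = κ := mk_ord_toType κ
  obtain ⟨inj⟩ : Nonempty (Idx ↪ Set K) := by
    rw [← Cardinal.le_def, Cardinal.mk_set, hK]
    exact hIdx
  let T : Type := (α : K) × Set (Set (Set.Iio α))
  have hT : #T ≤ κ := by
    rw [Cardinal.mk_sigma]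
    refine (Cardinal.sum_le_sum _ (fun _ => κ) fun α => ?_).trans ?_
    · rw [Cardinal.mk_set, Cardinal.mk_set]
      exact (hκ.isStrongPrelimit (hκ.isStrongPrelimit (card_Iio_lt α))).le
    · rw [Cardinal.sum_const', hK, Cardinal.mul_eq_self hinf]
  obtain ⟨e⟩ : Nonempty (T ↪ K) := by
    rw [← Cardinal.le_def, hK]
    exact hT
  let B : Idx → Set K := fun a => {ξ | ∃ t : T, e t = ξ ∧ {x : Set.Iio t.1 | x.1 ∈ inj a} ∈ t.2}
  refine ⟨B, fun A hA E => ?_⟩
  -- the differences
  have hdiff : ∀ a a' : Idx, a ≠ a' → ∃ x : K, ¬ (x ∈ inj a ↔ x ∈ inj a') := by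
    intro a a' h
    by_contra hcon
    push Not at hcon
    exact h (inj.injective (Set.ext hcon))
  let df : Idx × Idx → K := fun p => if h : p.1 ≠ p.2 then (hdiff p.1 p.2 h).choose else
    (Classical.choice (by
      rw [← Cardinal.mk_ne_zero_iff, hK]
      exact hreg.ne_zero))
  obtain ⟨b, hb⟩ := exists_bound hreg (df '' (A ×ˢ A)) (by
    refine lt_of_le_of_lt Cardinal.mk_image_le ?_
    rw [Cardinal.mk_setProd]
    simpa using Cardinal.mul_lt_of_lt hinf hA hA)
  have hIoi : #(Set.Ioi b) = κ := by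
    have h1 : #(Set.Iic b) < κ := by
      have : Set.Iic b ⊆ Set.Iio b ∪ {b} := by
        intro x hx
        rcases lt_or_eq_of_le (Set.mem_Iic.1 hx) with h | h
        · exact Or.inl h
        · exact Or.inr h
      refine lt_of_le_of_lt (Cardinal.mk_le_mk_of_subset this) ?_
      refine lt_of_le_of_lt (Cardinal.mk_union_le _ _) ?_
      refine Cardinal.add_lt_of_lt hinf (card_Iio_lt b) ?_
      rw [Cardinal.mk_singleton]
      exact (Cardinal.one_lt_aleph0).trans_le hinf
    have h2 : #(Set.Iic b) + #(Set.Ioi b) = κ := by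
      have h3 := Cardinal.mk_sum_compl (Set.Iic b)
      rw [Set.compl_Iic] at h3
      rw [h3, hK]
    by_contra hne
    have h4 : #(Set.Ioi b) < κ := by
      refine lt_of_le_of_ne ?_ hne
      exact (Cardinal.mk_set_le _).trans_eq hK
    have h5 := Cardinal.add_lt_of_lt hinf h1 h4
    rw [h2] at h5
    exact lt_irrefl _ h5
  refine hIoi.ge.trans ?_
  -- the embedding
  let t : Set.Ioi b → T := fun α => ⟨α.1, {F | ∃ a ∈ A, a ∈ E ∧ F = {x : Set.Iio α.1 | x.1 ∈ inj a}}⟩
  have ht : ∀ α : Set.Ioi b, e (t α) ∈ {ξ : K | ∀ a ∈ A, (ξ ∈ B a ↔ a ∈ E)} := by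
    intro α a ha
    constructor
    · rintro ⟨t', ht', hmem⟩
      have h1 : t' = t α := e.injective ht'
      subst h1
      obtain ⟨a', ha', hE, hF⟩ := hmem
      by_cases haa : a = a'
      · rw [haa]; exact hE
      · exfalso
        have h2 : df (a, a') < α.1 := (hb _ ⟨(a, a'), ⟨ha, ha'⟩, rfl⟩).trans α.2
        have h3 : df (a, a') = (hdiff a a' haa).choose := by
          simp only [df]
          rw [dif_pos haa]
        have h4 := (hdiff a a' haa).choose_spec
        rw [← h3] at h4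
        apply h4
        have h5 : (⟨df (a, a'), h2⟩ : Set.Iio α.1) ∈ {x : Set.Iio α.1 | x.1 ∈ inj a} ↔
            (⟨df (a, a'), h2⟩ : Set.Iio α.1) ∈ {x : Set.Iio α.1 | x.1 ∈ inj a'} := by
          have hF' : {x : Set.Iio α.1 | x.1 ∈ inj a} = {x : Set.Iio α.1 | x.1 ∈ inj a'} := hF
          rw [hF']
        exact h5
    · intro hE
      exact ⟨t α, rfl, a, ha, hE, rfl⟩
  exact Cardinal.mk_le_of_injective (f := fun α : Set.Ioi b =>
    (⟨e (t α), ht α⟩ : {ξ : K | ∀ a ∈ A, (ξ ∈ B a ↔ a ∈ E)})) (by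
      intro α α' h
      have h1 : e (t α) = e (t α') := congrArg Subtype.val h
      have h2 := e.injective h1
      have h3 : (t α).1 = (t α').1 := by rw [h2]
      exact Subtype.ext h3)

end Pool.Agent.W869.CC
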