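import Pool.Agent.W869.CC.Core
import Pool.Agent.W869.CC.Indep
import Pool.Agent.W869.CC.Defs

/-!
# Nonreflecting stationary sets
-/

set_option autoImplicit false

namespace Pool.Agent.W869.CC

open Cardinal

section
variable {Z : Type} [LinearOrder Z]

theorem exists_seq {α : Z} (hα : Order.cof (Set.Iio α) = ℵ₀) :
    ∃ f : ℕ → Z, (∀ n, f n < α) ∧ ∀ δ < α, ∃ n, δ < f n := by
  obtain ⟨s, hs, hs'⟩ := Order.exists_cof_eq (Set.Iio α)
  rw [hα] at hs'
  have hne : Nonempty (Set.Iio α) := by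
    rw [← Order.cof_ne_zero_iff, hα]
    exact Cardinal.aleph0_ne_zero
  have h1 : (1 : Cardinal) < Order.cof (Set.Iio α) := by
    rw [hα]; exact Cardinal.one_lt_aleph0
  rw [Order.one_lt_cof_iff] at h1
  have hsn : s.Nonempty := by
    obtain ⟨e, he, -⟩ := hs (Classical.choice hne)
    exact ⟨e, he⟩
  have hsc : s.Countable := Cardinal.le_aleph0_iff_set_countable.1 hs'.le
  obtain ⟨f, hf⟩ := hsc.exists_eq_range hsn
  refine ⟨fun n => (f n).1, fun n => (f n).2, fun δ hδ => ?_⟩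
  have h2 := h1.exists_not_le ⟨δ, hδ⟩
  obtain ⟨δ', hδ'⟩ := h2
  obtain ⟨e, he, hle⟩ := hs δ'
  rw [hf] at he
  obtain ⟨n, rfl⟩ := he
  exact ⟨n, (not_le.1 hδ' : δ < δ'.1).trans_le hle⟩

theorem aleph0_lt_cof {β ζ : Z} (hβ : ¬ T1 β) (hζ : ζ < β) : ℵ₀ < Order.cof (Set.Iio β) := by
  by_contra hcon
  rw [not_lt] at hcon
  obtain ⟨s, hs, hs'⟩ := Order.exists_cof_eq (Set.Iio β)
  have hsn : s.Nonempty := by
    obtain ⟨e, he, -⟩ := hs ⟨ζ, hζ⟩
    exact ⟨e, he⟩
  have hsc : s.Countable := Cardinal.le_aleph0_iff_set_countable.1 (hs'.le.trans hcon)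
  obtain ⟨f, hf⟩ := hsc.exists_eq_range hsn
  refine hβ ⟨fun n => (f n).1, fun n => (f n).2, fun i hi z hz => ?_⟩
  by_contra hzβ
  rw [not_le] at hzβ
  obtain ⟨e, he, hle⟩ := hs ⟨z, hzβ⟩
  rw [hf] at he
  obtain ⟨n, rfl⟩ := he
  exact absurd (hz.trans_le hle) (not_lt.2 (hi n))

theorem exists_club {S : Set Z} (hS : Nonreflecting S) {β : Z} (hβ : ¬ T1 β) :
    ∃ D : Set Z, Disjoint D S ∧ (∀ ζ < β, ∃ d ∈ D, ζ < d ∧ d < β) ∧
      ∀ α < β, (∃ δ, δ < α) → (∀ δ < α, ∃ d ∈ D, δ < d ∧ d < α) → α ∈ D := by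
  by_cases hmin : ∃ ζ, ζ < β
  · obtain ⟨ζ₀, hζ₀⟩ := hmin
    have h0 := aleph0_lt_cof hβ hζ₀
    have h1 := hS.nonreflecting β h0
    rw [not_isStationary_iff] at h1
    obtain ⟨t, ht, hdis⟩ := h1
    have hne : Nonempty (Set.Iio β) := ⟨⟨ζ₀, hζ₀⟩⟩
    have h2 : (1 : Cardinal) < Order.cof (Set.Iio β) := Cardinal.one_lt_aleph0.trans h0
    rw [Order.one_lt_cof_iff] at h2
    refine ⟨Subtype.val '' t, ?_, ?_, ?_⟩
    · rw [Set.disjoint_left]
      rintro _ ⟨x, hx, rfl⟩ hxS
      exact Set.disjoint_left.1 hdis hxS hx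
    · intro ζ hζ
      obtain ⟨δ', hδ'⟩ := h2.exists_not_le ⟨ζ, hζ⟩
      obtain ⟨e, he, hle⟩ := ht.isCofinal δ'
      exact ⟨e.1, ⟨e, he, rfl⟩, (not_le.1 hδ' : ζ < δ'.1).trans_le hle, e.2⟩
    · rintro α hα ⟨δ₀, hδ₀⟩ hlim
      have h3 : (⟨α, hα⟩ : Set.Iio β) ∈ t := by
        refine ht.isLUB_mem (t := {x | x ∈ t ∧ x.1 < α}) (fun x hx => hx.1) ?_ ?_
        · obtain ⟨_, ⟨d, hd, rfl⟩, h4, h5⟩ := hlim δ₀ hδ₀
          exact ⟨d, hd, h5⟩
        · constructor
          · intro x hx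
            exact le_of_lt (α := Z) hx.2
          · intro b hb
            by_contra hcon
            have hcon' : b.1 < α := not_le.1 hcon
            obtain ⟨_, ⟨d, hd, rfl⟩, h4, h5⟩ := hlim b.1 hcon'
            exact absurd (hb ⟨hd, h5⟩ : d.1 ≤ b.1) (not_le.2 h4)
      exact ⟨_, h3, rfl⟩
  · refine ⟨∅, Set.empty_disjoint _, fun ζ hζ => absurd ⟨ζ, hζ⟩ hmin, fun α hα h => ?_⟩
    exact absurd ⟨α, hα⟩ hmin

/-- closure points -/
theorem isClub_closure [WellFoundedLT Z] (hno : ∀ z : Z, ∃ z', z < z')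
    (hlub : ∀ f : ℕ → Z, ∃ b, ∀ n, f n ≤ b)
    (hbd : ∀ (F : List Z → Z) (z : Z), ∃ b, ∀ s : List Z, (∀ x ∈ s, x ≤ z) → F s < b)
    (F : List Z → Z) : IsClub {α : Z | ∀ s : List Z, (∀ x ∈ s, x < α) → F s < α} := by
  constructor
  · intro d hd hne _ a ha s hs
    -- a member of `d` above all members of `s`
    have h1 : ∃ e ∈ d, ∀ x ∈ s, x < e := by
      clear hd
      induction s with
      | nil =>
        obtain ⟨e, he⟩ := hne
        exact ⟨e, he, fun x hx => absurd hx (by simp)⟩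
      | cons y s ih =>
        obtain ⟨e, he, he'⟩ := ih fun x hx => hs x (List.mem_cons_of_mem _ hx)
        have hy : y < a := hs y List.mem_cons_self
        obtain ⟨e', h2, h3, -⟩ := ha.exists_between hy
        refine ⟨max e e', ?_, ?_⟩
        · rcases max_choice e e' with h | h <;> rw [h] <;> assumption
        · intro x hx
          rcases List.mem_cons.1 hx with rfl | hx
          · exact h3.trans_le (le_max_right _ _)
          · exact (he' x hx).trans_le (le_max_left _ _)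
    obtain ⟨e, he, he'⟩ := h1
    exact (hd he s he').trans_le (ha.1 he)
  · intro z
    choose g hg using hbd F
    choose up hup using hno
    let G : Z → Z := fun z => max (g z) (up z)
    let u : ℕ → Z := fun n => Nat.rec z (fun _ w => G w) n
    have hu : ∀ n, u (n + 1) = G (u n) := fun n => rfl
    have hinc : ∀ n, u n < u (n + 1) := fun n => by
      rw [hu]; exact (hup _).trans_le (le_max_right _ _)
    have hmono : StrictMono u := strictMono_nat_of_lt_succ hinc
    -- the least upper bound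
    have hne : {b : Z | ∀ n, u n ≤ b}.Nonempty := hlub u
    let α := wellFounded_lt.min {b : Z | ∀ n, u n ≤ b} hne
    have hα : ∀ n, u n ≤ α := wellFounded_lt.min_mem _ hne
    have hα' : ∀ x < α, ∃ n, x < u n := by
      intro x hx
      by_contra hcon
      push Not at hcon
      exact wellFounded_lt.not_lt_min {b : Z | ∀ n, u n ≤ b} (show x ∈ {b : Z | ∀ n, u n ≤ b} from hcon) hx
    refine ⟨α, ?_, hα 0⟩
    intro s hs
    have h1 : ∃ n, ∀ x ∈ s, x ≤ u n := by
      induction s with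
      | nil => exact ⟨0, fun x hx => absurd hx (by simp)⟩
      | cons y s ih =>
        obtain ⟨n, hn⟩ := ih fun x hx => hs x (List.mem_cons_of_mem _ hx)
        obtain ⟨m, hm⟩ := hα' y (hs y List.mem_cons_self)
        refine ⟨max n m, ?_⟩
        intro x hx
        rcases List.mem_cons.1 hx with rfl | hx
        · exact hm.le.trans (hmono.monotone (le_max_right _ _))
        · exact (hn x hx).trans (hmono.monotone (le_max_left _ _))
    obtain ⟨n, hn⟩ := h1
    calc F s < g (u n) := hg _ s hn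
      _ ≤ G (u n) := le_max_left _ _
      _ = u (n + 1) := (hu n).symm
      _ ≤ α := hα (n + 1)

end

/-- bounding functions on lists -/
theorem list_bound {c : Cardinal.{0}} (hc : c.IsRegular) (hc' : ℵ₀ < c)
    (F : List c.ord.ToType → c.ord.ToType) (z : c.ord.ToType) :
    ∃ b, ∀ s : List c.ord.ToType, (∀ x ∈ s, x ≤ z) → F s < b := by
  have h1 : #(Set.Iic z) < c := by
    have : Set.Iic z ⊆ Set.Iio z ∪ {z} := by
      intro x hx
      rcases lt_or_eq_of_le (Set.mem_Iic.1 hx) with h | h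
      · exact Or.inl h
      · exact Or.inr h
    refine lt_of_le_of_lt (Cardinal.mk_le_mk_of_subset this) ?_
    refine lt_of_le_of_lt (Cardinal.mk_union_le _ _) ?_
    refine Cardinal.add_lt_of_lt hc.aleph0_le (card_Iio_lt z) ?_
    rw [Cardinal.mk_singleton]
    exact (Cardinal.one_lt_aleph0).trans_le hc.aleph0_le
  have h2 : #(List (Set.Iic z)) < c :=
    (Cardinal.mk_list_le_max _).trans_lt (max_lt hc' h1)
  obtain ⟨b, hb⟩ := exists_bound hc
    (Set.range fun s : List (Set.Iic z) => F (s.map Subtype.val)) (Cardinal.mk_range_le.trans_lt h2)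
  refine ⟨b, fun s hs => ?_⟩
  have hs' : ∀ x ∈ s, x ∈ Set.Iic z := fun x hx => Set.mem_Iic.2 (hs x hx)
  have h3 : (s.attachWith (· ∈ Set.Iic z) hs').map Subtype.val = s :=
    List.attachWith_map_subtype_val hs'
  have h4 := hb _ ⟨s.attachWith (· ∈ Set.Iic z) hs', rfl⟩
  simp only [h3] at h4
  exact h4

end Pool.Agent.W869.CC
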