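import Pool.Agent.W869.CC.Game
import Pool.Agent.W869.CC.Stat
import Pool.Agent.W869.CC.Meas

/-!
# Assembly
-/

set_option autoImplicit false

namespace Pool.Agent.W869.CC

open Cardinal

theorem mk_form_le (Z : Type) [Infinite Z] : #(Form Z) ≤ #Z := by
  have hZ : ℵ₀ ≤ #Z := Cardinal.aleph0_le_mk Z
  have hW : #(Word Z) ≤ #Z := by
    refine (Cardinal.mk_list_le_max _).trans (max_le hZ ?_)
    rw [Cardinal.mk_sum, Cardinal.mk_nat, Cardinal.lift_aleph0, Cardinal.lift_id]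
    exact Cardinal.add_le_of_le hZ hZ le_rfl
  let f : Form Z → (Word Z × Z) ⊕ ((Word Z × Word Z) ⊕ Word Z) := fun φ =>
    match φ with
    | Form.le w i => Sum.inl (w, i)
    | Form.lt w w' => Sum.inr (Sum.inl (w, w'))
    | Form.t1 w => Sum.inr (Sum.inr w)
  have hf : Function.Injective f := by
    intro a b h
    cases a <;> cases b <;> simp_all [f]
  refine (Cardinal.mk_le_of_injective hf).trans ?_
  simp only [Cardinal.mk_sum, Cardinal.mk_prod, Cardinal.lift_id]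
  refine Cardinal.add_le_of_le hZ (Cardinal.mul_le_of_le hZ hW le_rfl)
    (Cardinal.add_le_of_le hZ (Cardinal.mul_le_of_le hZ hW hW) hW)

/-- the ideal without winning strategies -/
theorem exists_ideal {κ : Cardinal.{0}} (hκ : κ.IsInaccessible)
    (S : Set (Order.succ κ).ord.ToType) (hS : Nonreflecting S) :
    ∃ J : Set (Set κ.ord.ToType), IsIdeal κ J ∧
      ∀ γ : Ordinal.{0}, Ordinal.omega 1 ≤ γ → ¬ ChooseWins J γ := by
  classical
  have hreg := hκ.isRegular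
  have hreg' : (Order.succ κ).IsRegular := Cardinal.isRegular_succ hreg.aleph0_le
  have hκ' : ℵ₀ < κ := hκ.aleph0_lt
  have hlt : ℵ₀ < Order.succ κ := hκ'.trans (Order.lt_succ κ)
  let Z := (Order.succ κ).ord.ToType
  have hZ : #Z = Order.succ κ := mk_ord_toType _
  haveI : Infinite Z := by
    rw [← Cardinal.aleph0_le_mk_iff, hZ]
    exact hlt.le
  have hno : ∀ z : Z, ∃ z', z < z' := exists_gt hreg'
  have hbdc : ∀ f : ℕ → Z, ∃ b, ∀ n, f n ≤ b := by
    intro f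
    obtain ⟨b, hb⟩ := exists_bound hreg' (Set.range f) (Cardinal.mk_range_le.trans_lt (by
      rw [Cardinal.mk_nat]; exact hlt))
    exact ⟨b, fun n => (hb _ ⟨n, rfl⟩).le⟩
  -- the functions
  have hc0 : ∀ β : Z, ∃ c : ℕ → Z, T1 β → (∀ n, c n < β) ∧ ∀ i, (∀ n, c n ≤ i) → ∀ z, i < z →
      β ≤ z := by
    intro β
    by_cases h : T1 β
    · obtain ⟨c, hc⟩ := h
      exact ⟨c, fun _ => hc⟩
    · exact ⟨fun _ => β, fun h' => absurd h' h⟩
  choose c0 hc0 using hc0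
  let c : ℕ → Z → Z := fun n β => c0 β n
  have hDc0 : ∀ β : Z, ∃ D : Set Z, ¬ T1 β → Disjoint D S ∧ (∀ ζ < β, ∃ d ∈ D, ζ < d ∧ d < β) ∧
      ∀ α < β, (∃ δ, δ < α) → (∀ δ < α, ∃ d ∈ D, δ < d ∧ d < α) → α ∈ D := by
    intro β
    by_cases h : T1 β
    · exact ⟨∅, fun h' => absurd h h'⟩
    · obtain ⟨D, hD⟩ := exists_club hS h
      exact ⟨D, fun _ => hD⟩
  choose Dc hDc using hDc0
  have hh0 : ∀ ζ β : Z, ∃ d : Z, ¬ T1 β → ζ < β → d ∈ Dc β ∧ ζ < d ∧ d < β := by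
    intro ζ β
    by_cases h : ¬ T1 β ∧ ζ < β
    · obtain ⟨d, h1, h2, h3⟩ := (hDc β h.1).2.1 ζ h.2
      exact ⟨d, fun _ _ => ⟨h1, h2, h3⟩⟩
    · exact ⟨β, fun h1 h2 => absurd ⟨h1, h2⟩ h⟩
  choose h hh using hh0
  -- the index set
  let Idx := Bool × Form Z
  have hIdx : #Idx ≤ 2 ^ κ := by
    have h1 : #Idx ≤ #Z := by
      rw [Cardinal.mk_prod, Cardinal.lift_id, Cardinal.lift_id]
      refine Cardinal.mul_le_of_le (Cardinal.aleph0_le_mk Z) ?_ (mk_form_le Z)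
      exact (Cardinal.mk_le_aleph0).trans (Cardinal.aleph0_le_mk Z)
    rw [hZ] at h1
    exact h1.trans (Order.succ_le_of_lt (Cardinal.cantor κ))
  obtain ⟨B, hB⟩ := exists_indep hκ Idx hIdx
  let D : Idx → Set Z := Dset c h
  let J : Set (Set κ.ord.ToType) := JI κ B D
  have hJd : ∀ X ∈ J, ∀ Y ⊆ X, Y ∈ J := fun X hX Y hY => JI_mono hX hY
  have hJu : ∀ F : Set (Set κ.ord.ToType), #F < κ → (∀ X ∈ F, X ∈ J) → ⋃₀ F ∈ J := by
    intro F hF hX
    rw [Set.sUnion_eq_iUnion]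
    refine JI_iUnion hreg hF ?_ fun X => hX X.1 X.2
    intro f
    obtain ⟨b, hb⟩ := exists_bound hreg' (Set.range f)
      (Cardinal.mk_range_le.trans_lt (hF.trans (Order.lt_succ κ)))
    exact ⟨b, fun n => (hb _ ⟨n, rfl⟩).le⟩
  have hJI : IsIdeal κ J := by
    refine ⟨hJd, hJu, fun X hX => ?_, JI_proper hreg hno hB⟩
    obtain ⟨b, hb⟩ := hX
    exact JI_small hreg ((Cardinal.mk_le_mk_of_subset (fun x hx => hb hx)).trans_lt
      (card_Iic_lt hreg.aleph0_le b))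
  refine ⟨J, hJI, fun γ hγ hwin => ?_⟩
  rw [chooseWins_iff] at hwin
  obtain ⟨σ, hσ⟩ := hwin
  have hpos : ∀ q : Pos σ, q.X ∉ J := Pos.X_notMem hJd hγ hσ
  -- countable unions
  have hJc : ∀ (s : Set Idx) (Y : Idx → Set κ.ord.ToType), s.Countable → (∀ a ∈ s, Y a ∈ J) →
      (⋃ a ∈ s, Y a) ∈ J := by
    intro s Y hs hY
    rw [← Set.sUnion_image]
    refine hJu _ ((Cardinal.le_aleph0_iff_set_countable.2 (hs.image Y)).trans_lt hκ') ?_
    rintro _ ⟨a, ha, rfl⟩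
    exact hY a ha
  have hJ2 : ∀ X Y : Set κ.ord.ToType, X ∈ J → Y ∈ J → X ∪ Y ∈ J := by
    intro X Y hX hY
    have h1 := hJu {X, Y} ((Cardinal.le_aleph0_iff_set_countable.2
      (Set.to_countable _)).trans_lt hκ') (by
      rintro W (rfl | rfl)
      · exact hX
      · exact hY)
    rwa [Set.sUnion_pair] at h1
  refine core (c := c) (h := h) (Dc := Dc) (S := S) hno hbdc (fun β hβ => hc0 β hβ)
    (fun β hβ ζ hζ => hh ζ β hβ hζ) (fun β hβ => (hDc β hβ).2.2) (fun β hβ => (hDc β hβ).1)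
    (fun α hα => exists_seq (hS.cof α hα)) ?_ (Q := Pos σ) Pos.root
    (fun q a => q.X \ B a ∈ J) ?_ ?_ ?_ ?_ ?_
  · intro F
    have h1 := isClub_closure hno hbdc (fun F z => list_bound hreg' hlt F z) F
    obtain ⟨α, hα1, hα2⟩ := hS.stationary h1
    exact ⟨α, hα1, hα2⟩
  · intro q φ
    obtain ⟨q', hq', h1 | h1⟩ := q.offer (B (true, φ))
    · refine ⟨q', hq', Or.inl ?_⟩
      show q'.X \ B (true, φ) ∈ J
      rw [h1]
      refine hJd _ (JI_small hreg (X := ∅) ?_) _ ?_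
      · rw [Cardinal.mk_eq_zero]
        exact Cardinal.aleph0_pos.trans hκ'
      · rintro x ⟨hx1, hx2⟩
        exact absurd hx1.2 hx2
    · refine ⟨q', hq', Or.inr ?_⟩
      show q'.X \ B (false, φ) ∈ J
      rw [h1]
      refine hJd _ (JI_pair (D := D) hreg hκ' (true, φ) (false, φ) ?_) _ ?_
      · intro x
        by_cases hx : Form.sat c h φ x
        · left
          show Form.sat c h φ x ↔ true = true
          simp [hx]
        · right
          show Form.sat c h φ x ↔ false = true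
          simp [hx]
      · rintro x ⟨hx1, hx2⟩
        exact ⟨hx1.2, hx2⟩
  · intro q q' a hq ha
    exact hJd _ ha _ (Set.diff_subset_diff_left (Pos.X_anti hq))
  · intro q s hs ha
    by_contra hcon
    have h1 : {ξ | ∀ a ∈ s, ξ ∈ B a} ∈ J := JI_countable hreg hκ' s hs hcon
    have h2 := hJ2 _ _ h1 (hJc s (fun a => q.X \ B a) hs ha)
    refine hpos q (hJd _ h2 _ fun x hx => ?_)
    by_cases hx' : ∀ a ∈ s, x ∈ B a
    · exact Or.inl hx'
    · right
      push Not at hx'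
      obtain ⟨a, ha1, ha2⟩ := hx'
      exact Set.mem_biUnion ha1 ⟨hx, ha2⟩
  · intro q i ha
    have h1 : B (true, Form.le [] i) ∈ J := by
      refine JI_single hreg hκ' _ i fun x hx hx' => ?_
      have h2 : x ≤ i := by
        have : Form.sat c h (Form.le [] i) x ↔ true = true := hx'
        simpa [Form.sat, ev] using this
      exact absurd hx (not_lt.2 h2)
    refine hpos q (hJd _ (hJ2 _ _ ha h1) _ fun x hx => ?_)
    by_cases hx' : x ∈ B (true, Form.le [] i)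
    · exact Or.inr hx'
    · exact Or.inl ⟨hx, hx'⟩
  · exact Pos.lim

/-- the theorem -/
theorem main {κ : Cardinal.{0}} (hκ : IsMeasurable κ)
    (S : Set (Order.succ κ).ord.ToType) (hS : Nonreflecting S) :
    ∃ I J : Set (Set κ.ord.ToType), IsIdeal κ I ∧ IsIdeal κ J ∧
      (∀ γ < κ.ord, ChooseWins I γ) ∧
      ∀ γ : Ordinal.{0}, Ordinal.omega 1 ≤ γ → ¬ ChooseWins J γ := by
  obtain ⟨J, hJ1, hJ2⟩ := exists_ideal hκ.isInaccessible S hS
  obtain ⟨h0, U, h1, h2⟩ := hκ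
  exact ⟨{X | X ∉ U}, J, isIdeal_dual h0 h1 h2, hJ1, fun γ hγ => chooseWins_dual h2 hγ, hJ2⟩

end Pool.Agent.W869.CC
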