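import Pool.Agent.W869.CC.FDefs
import Pool.Agent.W869.CC.Main

/-!
# The elementary notions agree with the notions of Mathlib
-/

set_option autoImplicit false

namespace Pool.Agent.W869.CC

open Cardinal

theorem isClub_iff_club {W : Type} [LinearOrder W] (hno : ∀ z : W, ∃ z', z < z') (t : Set W) :
    IsClub t ↔ Club fun x => x ∈ t := by
  constructor
  · intro ht
    refine ⟨fun δ => ?_, fun α h1 h2 => ?_⟩
    · obtain ⟨z, hz⟩ := hno δ
      obtain ⟨y, hy, hle⟩ := ht.isCofinal z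
      exact ⟨y, hz.trans_le hle, hy⟩
    · refine ht.isLUB_mem (t := {x | x ∈ t ∧ x < α}) (fun x hx => hx.1) ?_ ?_
      · obtain ⟨δ, hδ⟩ := h1
        obtain ⟨γ, -, h3, h4⟩ := h2 δ hδ
        exact ⟨γ, h4, h3⟩
      · constructor
        · intro x hx
          exact hx.2.le
        · intro b hb
          by_contra hcon
          rw [not_le] at hcon
          obtain ⟨γ, h3, h4, h5⟩ := h2 b hcon
          exact absurd (hb ⟨h5, h4⟩) (not_le.2 h3)
  · rintro ⟨h1, h2⟩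
    constructor
    · intro d hd hne _ a ha
      by_cases had : a ∈ d
      · exact hd had
      · have hlt : ∀ e ∈ d, e < a := fun e he =>
          lt_of_le_of_ne (ha.1 he) fun h => had (h ▸ he)
        obtain ⟨e, he⟩ := hne
        refine h2 a ⟨e, hlt e he⟩ fun δ hδ => ?_
        obtain ⟨γ, h3, h4, -⟩ := ha.exists_between hδ
        exact ⟨γ, h4, hlt γ h3, hd h3⟩
    · intro x
      obtain ⟨γ, h3, h4⟩ := h1 x
      exact ⟨γ, h4, h3.le⟩

section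
variable {Z : Type} [LinearOrder Z]

theorem IsLim.exists_gt' {β : Z} (h : IsLim β) (z : Set.Iio β) : ∃ z' : Set.Iio β, z < z' := by
  obtain ⟨γ, h1, h2⟩ := h.2 z.1 z.2
  exact ⟨⟨γ, h2⟩, h1⟩

theorem one_lt_cof_Iio {β : Z} : 1 < Order.cof (Set.Iio β) ↔ IsLim β := by
  constructor
  · intro h
    have hne : Nonempty (Set.Iio β) := by
      rw [← Order.cof_ne_zero_iff]
      exact (zero_lt_one.trans h).ne'
    rw [Order.one_lt_cof_iff] at h
    refine ⟨⟨_, (Classical.choice hne).2⟩, fun δ hδ => ?_⟩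
    obtain ⟨γ, hγ⟩ := h.exists_not_le ⟨δ, hδ⟩
    exact ⟨γ.1, not_le.1 hγ, γ.2⟩
  · intro h
    have hne : Nonempty (Set.Iio β) := by
      obtain ⟨δ, hδ⟩ := h.1
      exact ⟨⟨δ, hδ⟩⟩
    rw [Order.one_lt_cof_iff]
    refine ⟨fun x => ?_⟩
    obtain ⟨y, hy⟩ := h.exists_gt' x
    exact ⟨y, not_le.2 hy⟩

theorem CofOm.isLim {β : Z} (h : CofOm β) : IsLim β := by
  obtain ⟨f, h1, h2⟩ := h
  refine ⟨⟨f 0, h1 0⟩, fun δ hδ => ?_⟩
  obtain ⟨n, hn⟩ := h2 δ hδ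
  exact ⟨f n, hn, h1 n⟩

theorem cof_eq_aleph0_iff {β : Z} : Order.cof (Set.Iio β) = ℵ₀ ↔ CofOm β := by
  constructor
  · exact exists_seq
  · intro h
    have h0 := one_lt_cof_Iio.2 h.isLim
    have h1 : ℵ₀ ≤ Order.cof (Set.Iio β) := Order.aleph0_le_cof_iff.2 h0
    refine le_antisymm ?_ h1
    obtain ⟨f, h2, h3⟩ := h
    have h4 : IsCofinal (Set.range fun n => (⟨f n, h2 n⟩ : Set.Iio β)) := by
      intro x
      obtain ⟨n, hn⟩ := h3 x.1 x.2
      exact ⟨_, ⟨n, rfl⟩, hn.le⟩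
    refine (Order.cof_le h4).trans ?_
    exact Cardinal.le_aleph0_iff_set_countable.2 (Set.countable_range _)

theorem aleph0_lt_cof_iff {β : Z} : ℵ₀ < Order.cof (Set.Iio β) ↔ IsLim β ∧ ¬ CofOm β := by
  rw [← cof_eq_aleph0_iff, ← one_lt_cof_Iio]
  constructor
  · intro h
    exact ⟨Cardinal.one_lt_aleph0.trans h, h.ne'⟩
  · rintro ⟨h1, h2⟩
    exact lt_of_le_of_ne (Order.aleph0_le_cof_iff.2 h1) (Ne.symm h2)

theorem clubIn_iff {β : Z} (C : Z → Prop) :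
    ClubIn C β ↔ Club fun x : Set.Iio β => C x.1 := by
  constructor
  · rintro ⟨h1, h2⟩
    refine ⟨fun δ => ?_, fun α h3 h4 => ?_⟩
    · obtain ⟨γ, h5, h6, h7⟩ := h1 δ.1 δ.2
      exact ⟨⟨γ, h6⟩, h5, h7⟩
    · obtain ⟨δ, hδ⟩ := h3
      refine h2 α.1 α.2 ⟨δ.1, hδ⟩ fun x hx => ?_
      obtain ⟨γ, h5, h6, h7⟩ := h4 ⟨x, lt_trans hx α.2⟩ hx
      exact ⟨γ.1, h5, h6, h7⟩
  · rintro ⟨h1, h2⟩
    refine ⟨fun δ hδ => ?_, fun α hα h3 h4 => ?_⟩
    · obtain ⟨γ, h5, h6⟩ := h1 ⟨δ, hδ⟩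
      exact ⟨γ.1, h5, γ.2, h6⟩
    · obtain ⟨δ, hδ⟩ := h3
      refine h2 ⟨α, hα⟩ ⟨⟨δ, hδ.trans hα⟩, hδ⟩ fun x hx => ?_
      obtain ⟨γ, h5, h6, h7⟩ := h4 x.1 hx
      exact ⟨⟨γ, h6.trans hα⟩, h5, h6, h7⟩

/-- the elementary form of the notion -/
theorem nonRef_iff (hno : ∀ z : Z, ∃ z', z < z') (S : Set Z) :
    NonRef (fun x => x ∈ S) ↔ Nonreflecting S := by
  constructor
  · rintro ⟨h1, h2, h3⟩
    refine ⟨fun t ht => ?_, fun α hα => cof_eq_aleph0_iff.2 (h2 α hα), fun β hβ hst => ?_⟩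
    · obtain ⟨α, h4, h5⟩ := h1 _ ((isClub_iff_club hno t).1 ht)
      exact ⟨α, h5, h4⟩
    · obtain ⟨h4, h5⟩ := aleph0_lt_cof_iff.1 hβ
      obtain ⟨C, hC1, hC2⟩ := h3 β h4 h5
      have h6 : IsClub {x : Set.Iio β | C x.1} :=
        (isClub_iff_club h4.exists_gt' _).2 ((clubIn_iff C).1 hC1)
      obtain ⟨x, hx1, hx2⟩ := hst h6
      exact hC2 x.1 x.2 ⟨hx2, hx1⟩
  · intro h
    refine ⟨fun C hC => ?_, fun α hα => cof_eq_aleph0_iff.1 (h.cof α hα), fun β h4 h5 => ?_⟩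
    · obtain ⟨α, h1, h2⟩ := h.stationary ((isClub_iff_club hno {x | C x}).2 hC)
      exact ⟨α, h2, h1⟩
    · have h6 := h.nonreflecting β (aleph0_lt_cof_iff.2 ⟨h4, h5⟩)
      rw [not_isStationary_iff] at h6
      obtain ⟨t, ht, hdis⟩ := h6
      refine ⟨fun x => ∃ hx : x < β, (⟨x, hx⟩ : Set.Iio β) ∈ t, ?_, ?_⟩
      · rw [clubIn_iff]
        have h7 := (isClub_iff_club h4.exists_gt' t).1 ht
        refine ⟨fun δ => ?_, fun α h8 h9 => ?_⟩
        · obtain ⟨γ, h8, h9⟩ := h7.1 δ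
          exact ⟨γ, h8, γ.2, h9⟩
        · refine ⟨α.2, h7.2 α h8 fun δ hδ => ?_⟩
          obtain ⟨γ, h10, h11, h12, h13⟩ := h9 δ hδ
          exact ⟨γ, h10, h11, h13⟩
      · rintro γ hγ ⟨⟨h7, h8⟩, h9⟩
        exact Set.disjoint_left.1 hdis h9 h8

end

/-- the elementary form of measurability -/
theorem isMeasurable_iff {κ : Cardinal.{0}} : IsMeasurable κ ↔
    ℵ₀ < κ ∧ ∃ (Y : Type) (E : Y → κ.ord.ToType → Prop), IsMeas E := by
  classical
  constructor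
  · rintro ⟨h0, U, h1, h2⟩
    refine ⟨h0, {X : Set κ.ord.ToType // X ∈ U}, fun y ξ => ξ ∈ y.1, ?_, ?_, ?_, ?_⟩
    · intro y x hx
      exact ⟨⟨{ξ | x ξ}, Filter.mem_of_superset y.2 hx⟩, fun ξ => Iff.rfl⟩
    · intro x hx
      have h3 : {ξ | x ξ} ∉ U := fun h => hx ⟨⟨_, h⟩, fun ξ => Iff.rfl⟩
      exact ⟨⟨{ξ | x ξ}ᶜ, Ultrafilter.compl_mem_iff_notMem.2 h3⟩, fun ξ => Iff.rfl⟩
    · intro η g
      have h3 := h2 ((fun ζ => (g ζ).1) '' Set.Iio η)
        (Cardinal.mk_image_le.trans_lt (card_Iio_lt η)) (by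
          rintro _ ⟨ζ, -, rfl⟩
          exact (g ζ).2)
      refine ⟨⟨_, h3⟩, fun ξ => ?_⟩
      constructor
      · intro h ζ hζ
        exact h _ ⟨ζ, hζ, rfl⟩
      · rintro h _ ⟨ζ, hζ, rfl⟩
        exact h ζ hζ
    · intro y
      obtain ⟨ξ, hξ⟩ := U.nonempty_of_mem y.2
      have h3 : y.1 ∩ {ξ}ᶜ ∈ U := Filter.inter_mem y.2
        (Ultrafilter.compl_mem_iff_notMem.2 (h1 ξ))
      obtain ⟨ξ', hξ'⟩ := U.nonempty_of_mem h3
      exact ⟨ξ, ξ', fun h => hξ'.2 h.symm, hξ, hξ'.1⟩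
  · rintro ⟨h0, Y, E, hE1, hE2, hE3, hE4⟩
    refine ⟨h0, ?_⟩
    haveI := Cardinal.noMaxOrder h0.le
    let fam : Set (Set κ.ord.ToType) := {X | ∃ y, ∀ ξ, E y ξ ↔ ξ ∈ X}
    have hne : ∀ X ∈ fam, ∃ ξ ξ', ξ ≠ ξ' ∧ ξ ∈ X ∧ ξ' ∈ X := by
      rintro X ⟨y, hy⟩
      obtain ⟨ξ, ξ', h1, h2, h3⟩ := hE4 y
      exact ⟨ξ, ξ', h1, (hy ξ).1 h2, (hy ξ').1 h3⟩
    have huniv : Set.univ ∈ fam := by
      obtain ⟨y, hy⟩ := hE2 (fun _ => False) (by
        rintro ⟨y, hy⟩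
        obtain ⟨ξ, ξ', -, h2, -⟩ := hE4 y
        exact (hy ξ).1 h2)
      exact ⟨y, fun ξ => ⟨fun _ => trivial, fun _ => (hy ξ).2 not_false⟩⟩
    have hup : ∀ X ∈ fam, ∀ X', X ⊆ X' → X' ∈ fam := by
      rintro X ⟨y, hy⟩ X' h
      obtain ⟨y', hy'⟩ := hE1 y (fun ξ => ξ ∈ X') fun ξ hξ => h ((hy ξ).1 hξ)
      exact ⟨y', hy'⟩
    have hcompl : ∀ F : Set (Set κ.ord.ToType), #F < κ → (∀ X ∈ F, X ∈ fam) → ⋂₀ F ∈ fam := by
      intro F hF hX
      by_cases hFne : F.Nonempty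
      · obtain ⟨η, hη⟩ : ∃ η : κ.ord.ToType, #(Set.Iio η) = #F := by
          have h3 : (#F).ord < Ordinal.type (α := κ.ord.ToType) (· < ·) := by
            rw [Ordinal.type_toType]
            exact Cardinal.ord_lt_ord.2 hF
          refine ⟨Ordinal.enum (α := κ.ord.ToType) (· < ·) ⟨(#F).ord, h3⟩, ?_⟩
          have h4 := Ordinal.typein_enum (α := κ.ord.ToType) (· < ·) h3
          have h5 := congrArg Ordinal.card h4
          rw [Cardinal.card_ord] at h5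
          exact h5
        obtain ⟨e⟩ := Cardinal.eq.1 hη
        choose yy hyy using hX
        obtain ⟨X0, hX0⟩ := hFne
        let g : κ.ord.ToType → Y := fun ζ =>
          if h : ζ < η then yy (e ⟨ζ, h⟩).1 (e ⟨ζ, h⟩).2 else yy X0 hX0
        obtain ⟨y, hy⟩ := hE3 η g
        refine ⟨y, fun ξ => ?_⟩
        rw [hy]
        constructor
        · intro h X hX
          have h1 : (e.symm ⟨X, hX⟩).1 < η := (e.symm ⟨X, hX⟩).2
          have h2 := h _ h1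
          simp only [g] at h2
          rw [dif_pos h1] at h2
          have h3 := (hyy _ _ ξ).1 h2
          have h4 : e ⟨(e.symm ⟨X, hX⟩).1, h1⟩ = ⟨X, hX⟩ := e.apply_symm_apply ⟨X, hX⟩
          rw [h4] at h3
          exact h3
        · intro h ζ hζ
          simp only [g]
          rw [dif_pos hζ]
          exact (hyy _ _ ξ).2 (h _ (e ⟨ζ, hζ⟩).2)
      · rw [Set.not_nonempty_iff_eq_empty.1 hFne, Set.sInter_empty]
        exact huniv
    let f : Filter κ.ord.ToType :=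
      { sets := fam
        univ_sets := huniv
        sets_of_superset := fun {X X'} h h' => hup X h X' h'
        inter_sets := fun {X X'} h h' => by
          have h1 := hcompl {X, X'} ((Cardinal.le_aleph0_iff_set_countable.2
            (Set.to_countable _)).trans_lt h0) (by
            rintro W (rfl | rfl)
            · exact h
            · exact h')
          rwa [Set.sInter_pair] at h1 }
    have hf : ∀ X, X ∈ f ↔ X ∈ fam := fun X => Iff.rfl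
    refine ⟨Ultrafilter.ofComplNotMemIff f fun X => ?_, fun x hx => ?_, fun F hF hX => ?_⟩
    · rw [hf, hf]
      constructor
      · intro h
        by_contra hcon
        obtain ⟨y, hy⟩ := hE2 (fun ξ => ξ ∈ X) hcon
        exact h ⟨y, hy⟩
      · intro h h'
        have h1 : X ∩ Xᶜ ∈ f := Filter.inter_mem ((hf X).2 h) ((hf _).2 h')
        rw [Set.inter_compl_self, hf] at h1
        obtain ⟨ξ, -, -, h2, -⟩ := hne _ h1
        exact h2
    · obtain ⟨ξ, ξ', h1, h2, h3⟩ := hne _ hx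
      exact h1 (h2.trans h3.symm)
    · exact hcompl F hF hX

end Pool.Agent.W869.CC
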