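import Pool.Agent.Helper669.Forcing

/-!
# Measures and nonreflecting stationary sets, and their translations into the forcing language
-/

set_option autoImplicit false

namespace Pool.Agent.W869.CC

open Cardinal Pool.Agent.Helper669.Forcing

section Ambient

/-- `β` has countable cofinality (and is a limit). -/
def CofOm {Z : Type} [LinearOrder Z] (β : Z) : Prop :=
  ∃ f : ℕ → Z, (∀ n, f n < β) ∧ ∀ δ < β, ∃ n, δ < f n

/-- `β` is neither the least element nor a successor. -/
def IsLim {Z : Type} [LinearOrder Z] (β : Z) : Prop :=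
  (∃ δ, δ < β) ∧ ∀ δ < β, ∃ γ, δ < γ ∧ γ < β

/-- `C` is unbounded in `Z` and contains the limits of its elements. -/
def Club {Z : Type} [LinearOrder Z] (C : Z → Prop) : Prop :=
  (∀ δ, ∃ γ, δ < γ ∧ C γ) ∧
    ∀ α, (∃ δ, δ < α) → (∀ δ < α, ∃ γ, δ < γ ∧ γ < α ∧ C γ) → C α

/-- `C` is closed and unbounded below `β`. -/
def ClubIn {Z : Type} [LinearOrder Z] (C : Z → Prop) (β : Z) : Prop :=
  (∀ δ < β, ∃ γ, δ < γ ∧ γ < β ∧ C γ) ∧
    ∀ α < β, (∃ δ, δ < α) → (∀ δ < α, ∃ γ, δ < γ ∧ γ < α ∧ C γ) → C α

/-- `S` is a stationary set of points of countable cofinality, and for all limits `β` of uncountable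
cofinality `S` is not stationary below `β`. -/
def NonRef {Z : Type} [LinearOrder Z] (S : Z → Prop) : Prop :=
  (∀ C : Z → Prop, Club C → ∃ α, C α ∧ S α) ∧ (∀ α, S α → CofOm α) ∧
    ∀ β, IsLim β → ¬ CofOm β → ∃ C : Z → Prop, ClubIn C β ∧ ∀ γ < β, ¬ (C γ ∧ S γ)

/-- The sets `E y` are the members of a nonprincipal ultrafilter on the well-ordered set `K`, which
is closed under intersections of families indexed by proper initial segments of `K`. -/
def IsMeas {K Y : Type} [LinearOrder K] (E : Y → K → Prop) : Prop :=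
  (∀ (y : Y) (x : K → Prop), (∀ ξ, E y ξ → x ξ) → ∃ y', ∀ ξ, E y' ξ ↔ x ξ) ∧
    (∀ x : K → Prop, (¬ ∃ y, ∀ ξ, E y ξ ↔ x ξ) → ∃ y, ∀ ξ, E y ξ ↔ ¬ x ξ) ∧
    (∀ (η : K) (g : K → Y), ∃ y, ∀ ξ, E y ξ ↔ ∀ ζ < η, E (g ζ) ξ) ∧
    ∀ y, ∃ ξ ξ', ξ ≠ ξ' ∧ E y ξ ∧ E y ξ'

/-- There is no function from `ℕ` onto `κ`, there is a measure on `κ`, there is no function from
`κ` onto `κ⁺`, and `κ⁺` has a nonreflecting stationary subset. -/
def Hypothesis (κ : Cardinal.{0}) : Prop :=
  (¬ ∃ f : ℕ → κ.ord.ToType, f.Surjective) ∧
    (∃ (Y : Type) (E : Y → κ.ord.ToType → Prop), IsMeas E) ∧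
    (¬ ∃ f : κ.ord.ToType → (Order.succ κ).ord.ToType, f.Surjective) ∧
    ∃ S : (Order.succ κ).ord.ToType → Prop, NonRef S

end Ambient

section Names

variable {P : Type} [Preorder P]

/-- `φ if and only if ψ`. -/
def fiff (φ ψ : Set P) : Set P := fand (fimp φ ψ) (fimp ψ φ)

/-- Forcing version of `CofOm`. -/
def CofOmN {Z : Type} [LinearOrder Z] (β : Z) : Set P :=
  fex fun f : ℕ → Z → Set P => fand (IsFun f)
    (fand (fall fun n => fall fun γ => fimp (meets (f n γ)) (fground (γ < β)))
      (fall fun δ => fimp (fground (δ < β))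
        (fex fun n => fex fun γ => fand (fground (δ < γ)) (meets (f n γ)))))

/-- Forcing version of `Club`. -/
def ClubN {Z : Type} [LinearOrder Z] (C : Z → Set P) : Set P :=
  fand (fall fun δ => fex fun γ => fand (fground (δ < γ)) (meets (C γ)))
    (fall fun α => fimp (fand (fground (∃ δ, δ < α))
        (fall fun δ => fimp (fground (δ < α))
          (fex fun γ => fand (fground (δ < γ ∧ γ < α)) (meets (C γ)))))
      (meets (C α)))

/-- Forcing version of `ClubIn`. -/
def ClubInN {Z : Type} [LinearOrder Z] (C : Z → Set P) (β : Z) : Set P :=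
  fand (fall fun δ => fimp (fground (δ < β))
      (fex fun γ => fand (fground (δ < γ ∧ γ < β)) (meets (C γ))))
    (fall fun α => fimp (fand (fground (α < β ∧ ∃ δ, δ < α))
        (fall fun δ => fimp (fground (δ < α))
          (fex fun γ => fand (fground (δ < γ ∧ γ < α)) (meets (C γ)))))
      (meets (C α)))

/-- Forcing version of `NonRef`. -/
def NonRefN {Z : Type} [LinearOrder Z] (S : Z → Set P) : Set P :=
  fand (fall fun C : Z → Set P => fimp (ClubN C) (fex fun α => fand (meets (C α)) (meets (S α))))
    (fand (fall fun α => fimp (meets (S α)) (CofOmN α))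
      (fall fun β => fimp (fand (fground (IsLim β)) (fnot (CofOmN β)))
        (fex fun C : Z → Set P => fand (ClubInN C β)
          (fall fun γ => fimp (fground (γ < β)) (fnot (fand (meets (C γ)) (meets (S γ))))))))

/-- Forcing version of `IsMeas`; functions from `K` to `Y` are given by names of their graphs. -/
def IsMeasN {K Y : Type} [LinearOrder K] (E : Y → K → Set P) : Set P :=
  fand (fall fun y => fall fun x : K → Set P =>
      fimp (fall fun ξ => fimp (meets (E y ξ)) (meets (x ξ)))
        (fex fun y' => fall fun ξ => fiff (meets (E y' ξ)) (meets (x ξ))))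
    (fand (fall fun x : K → Set P =>
        fimp (fnot (fex fun y => fall fun ξ => fiff (meets (E y ξ)) (meets (x ξ))))
          (fex fun y => fall fun ξ => fiff (meets (E y ξ)) (fnot (meets (x ξ)))))
      (fand (fall fun η : K => fall fun g : K → Y → Set P => fimp (IsFun g)
          (fex fun y => fall fun ξ => fiff (meets (E y ξ))
            (fall fun ζ => fall fun z => fimp (fand (fground (ζ < η)) (meets (g ζ z)))
              (meets (E z ξ)))))
        (fall fun y => fex fun ξ => fex fun ξ' =>
          fand (fground (ξ ≠ ξ')) (fand (meets (E y ξ)) (meets (E y ξ'))))))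

/-- In the extension there is no function from `K` onto `Z`. -/
def NoOnto (P : Type) [Preorder P] (K Z : Type) : Set P :=
  fnot (fex fun R : K → Z → Set P => fand (IsFun R) (IsOnto R))

/-- The forcing version of `Hypothesis`: the well-ordered set `κ` of the ground model is
uncountable and carries a nonprincipal ultrafilter closed under intersections of fewer than `κ`
members (so it is a measurable cardinal of the extension), the ground model `κ⁺` is the successor
cardinal of `κ` in the extension too, and it has a nonreflecting stationary subset. -/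
def HypothesisN (P : Type) [Preorder P] (κ : Cardinal.{0}) : Set P :=
  fand (NoOnto P ℕ κ.ord.ToType)
    (fand (fex fun Y : Type => fex fun E : Y → κ.ord.ToType → Set P => IsMeasN E)
      (fand (NoOnto P κ.ord.ToType (Order.succ κ).ord.ToType)
        (fex fun S : (Order.succ κ).ord.ToType → Set P => NonRefN S)))

end Names

end Pool.Agent.W869.CC
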