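import Pool.Agent.W869.CC.Forc

/-!
# What is forced
-/

set_option autoImplicit false

namespace Pool.Agent.W869.CC

open Cardinal Pool.Agent.Helper669.Forcing

section General
variable {P : Type} [Preorder P]

theorem mem_meets_fground {h : Prop} {p : P} : p ∈ meets (fground (P := P) h) ↔ h := by
  constructor
  · intro hp
    obtain ⟨r, -, s, hs, -⟩ := hp p le_rfl
    exact hs
  · intro hh
    exact meets_of_mem hh

theorem meets_of_dense {N : Set P} {p : P} (h : ∀ q ≤ p, ∃ r ≤ q, r ∈ meets N) : p ∈ meets N := by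
  intro q hq
  obtain ⟨r, hr, h1⟩ := h q hq
  obtain ⟨r', hr', h2⟩ := h1 r le_rfl
  exact ⟨r', hr'.trans hr, h2⟩

theorem fiff_of {h : Prop} {N : Set P} {p : P} (h1 : h → p ∈ meets N)
    (h2 : ¬ h → p ∈ fnot (meets N)) : p ∈ fiff (meets (fground h)) (meets N) := by
  constructor
  · refine mem_fimp.2 fun q hq hh => ?_
    exact ⟨q, le_rfl, down_meets _ _ (h1 (mem_meets_fground.1 hh)) _ hq⟩
  · refine mem_fimp.2 fun q hq hh => ?_
    by_cases hh' : h
    · exact ⟨q, le_rfl, mem_meets_fground.2 hh'⟩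
    · exact absurd hh (h2 hh' q hq)

theorem fiff_of_not {h : Prop} {N : Set P} {p : P} (h1 : h → p ∈ fnot (meets N))
    (h2 : ¬ h → p ∈ meets N) : p ∈ fiff (meets (fground h)) (fnot (meets N)) := by
  constructor
  · refine mem_fimp.2 fun q hq hh => ?_
    exact ⟨q, le_rfl, down_fnot _ _ (h1 (mem_meets_fground.1 hh)) _ hq⟩
  · refine mem_fimp.2 fun q hq hh => ?_
    by_cases hh' : h
    · exact ⟨q, le_rfl, mem_meets_fground.2 hh'⟩
    · exact absurd (down_meets _ _ (h2 hh') _ hq) (hh q le_rfl)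

theorem down_fiff (φ ψ : Set P) : Down (fiff φ ψ) := down_fand (down_fimp _ _) (down_fimp _ _)

variable {Z : Type} [LinearOrder Z]

theorem cofOmN_of {β : Z} (h : CofOm β) (p : P) : p ∈ CofOmN (P := P) β := by
  obtain ⟨f, h1, h2⟩ := h
  refine mem_fex_of_mem (fun n γ => fground (f n = γ)) ?_ ⟨⟨?_, ?_⟩, ?_, ?_⟩
  · exact down_fand (down_IsFun _) (down_fand (down_fall fun _ => down_fall fun _ => down_fimp _ _)
      (down_fall fun _ => down_fimp _ _))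
  · intro n
    exact mem_fex_of_mem (f n) (down_meets _) (mem_meets_fground.2 rfl)
  · intro n y y'
    refine mem_fimp.2 fun q hq hh => ⟨q, le_rfl, ?_⟩
    exact (mem_meets_fground.1 hh.1).symm.trans (mem_meets_fground.1 hh.2)
  · intro n γ
    refine mem_fimp.2 fun q hq hh => ⟨q, le_rfl, ?_⟩
    have h3 : f n = γ := mem_meets_fground.1 hh
    show γ < β
    rw [← h3]
    exact h1 n
  · intro δ
    refine mem_fimp.2 fun q hq hh => ⟨q, le_rfl, ?_⟩
    obtain ⟨n, hn⟩ := h2 δ hh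
    refine mem_fex_of_mem n (down_fex _) (mem_fex_of_mem (f n) (down_fand (down_fground _)
      (down_meets _)) ⟨hn, mem_meets_fground.2 rfl⟩)

theorem down_ClubN (C : Z → Set P) : Down (ClubN C) :=
  down_fand (down_fall fun _ => down_fex _) (down_fall fun _ => down_fimp _ _)

theorem down_ClubInN (C : Z → Set P) (β : Z) : Down (ClubInN C β) :=
  down_fand (down_fall fun _ => down_fimp _ _) (down_fall fun _ => down_fimp _ _)

theorem clubInN_of {C : Z → Prop} {β : Z} (h : ClubIn C β) (p : P) :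
    p ∈ ClubInN (P := P) (fun γ => fground (C γ)) β := by
  refine ⟨fun δ => ?_, fun α => ?_⟩
  · refine mem_fimp.2 fun q hq hh => ⟨q, le_rfl, ?_⟩
    obtain ⟨γ, h1, h2, h3⟩ := h.1 δ hh
    exact mem_fex_of_mem γ (down_fand (down_fground _) (down_meets _))
      ⟨⟨h1, h2⟩, mem_meets_fground.2 h3⟩
  · refine mem_fimp.2 fun q hq hh => ⟨q, le_rfl, ?_⟩
    refine mem_meets_fground.2 (h.2 α hh.1.1 hh.1.2 fun δ hδ => ?_)
    obtain ⟨r, hr, h1⟩ := mem_fimp.1 (hh.2 δ) q le_rfl hδ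
    obtain ⟨r', -, γ, h2⟩ := mem_fex.1 h1 r le_rfl
    exact ⟨γ, h2.1.1, h2.1.2, mem_meets_fground.1 h2.2⟩

end General

section
variable {Z : Type} [LinearOrder Z]

/-- the name of the generic set -/
def Sn (α : Z) : Set (Cond Z) := {p | α ∈ p.s}

theorem mem_of_meets_Sn {α : Z} {p : Cond Z} (hα : α ≤ p.top) (h : p ∈ meets (Sn α)) :
    α ∈ p.s := by
  obtain ⟨r, hr, t, ht, hrt⟩ := h p le_rfl
  exact (hr.2 α hα).1 ((hrt.2 α (t.le_top α ht)).2 ht)

/-- the generic set is stationary -/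
theorem forces_stationary [WellFoundedLT Z] (hno : ∀ z : Z, ∃ z', z < z')
    (hbd : ∀ f : ℕ → Z, ∃ b, ∀ j, f j ≤ b) (C : Z → Set (Cond Z)) (q : Cond Z)
    (hq : q ∈ ClubN C) : ∃ r ≤ q, ∃ α, r ∈ fand (meets (C α)) (meets (Sn α)) := by
  classical
  have hstep : ∀ q' : {q' : Cond Z // q' ≤ q}, ∃ p : {q' : Cond Z // q' ≤ q} × Z,
      p.1.1 ≤ q'.1 ∧ q'.1.top < p.2 ∧ p.2 < p.1.1.top ∧ p.1.1 ∈ meets (C p.2) := by
    rintro ⟨q', hq'⟩
    obtain ⟨r, hr, γ, h1, h2⟩ := mem_fex.1 ((down_ClubN C _ hq _ hq').1 q'.top) q' le_rfl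
    obtain ⟨z, hz⟩ := hno (max γ r.top)
    have hz' : r.top < z := (le_max_right _ _).trans_lt hz
    refine ⟨(⟨r.up z hz', (r.up_le z hz').trans (hr.trans hq')⟩, γ), ?_, h1, ?_, ?_⟩
    · exact (r.up_le z hz').trans hr
    · exact (le_max_left _ _).trans_lt hz
    · exact down_meets _ _ h2 _ (r.up_le z hz')
  choose nx hnx using hstep
  let u : ℕ → {q' : Cond Z // q' ≤ q} := fun n => Nat.rec ⟨q, le_rfl⟩ (fun _ q' => (nx q').1) n
  have hu : ∀ n, u (n + 1) = (nx (u n)).1 := fun n => rfl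
  let g : ℕ → Z := fun n => (nx (u n)).2
  have h1 : ∀ n, (u (n + 1)).1 ≤ (u n).1 := fun n => by rw [hu]; exact (hnx (u n)).1
  have h2 : ∀ n, (u n).1.top < g n := fun n => (hnx (u n)).2.1
  have h3 : ∀ n, g n < (u (n + 1)).1.top := fun n => by rw [hu]; exact (hnx (u n)).2.2.1
  have h4 : ∀ n, (u (n + 1)).1 ∈ meets (C (g n)) := fun n => by rw [hu]; exact (hnx (u n)).2.2.2
  have hanti : ∀ m n, m ≤ n → (u n).1 ≤ (u m).1 := by
    intro m n h
    induction n, h using Nat.le_induction with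
    | base => exact le_rfl
    | succ n _ ih => exact (h1 n).trans ih
  have hne := hbd fun n => (u n).1.top
  let δ := wellFounded_lt.min {b : Z | ∀ j, (u j).1.top ≤ b} hne
  have hδ0 : ∀ j, (u j).1.top ≤ δ := wellFounded_lt.min_mem {b : Z | ∀ j, (u j).1.top ≤ b} hne
  have hδ' : ∀ x < δ, ∃ j, x < (u j).1.top := by
    intro x hx
    by_contra hcon
    push Not at hcon
    exact wellFounded_lt.not_lt_min {b : Z | ∀ j, (u j).1.top ≤ b}
      (show x ∈ {b : Z | ∀ j, (u j).1.top ≤ b} from hcon) hx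
  have hδ : ∀ j, (u j).1.top < δ := fun j => ((h2 j).trans (h3 j)).trans_le (hδ0 (j + 1))
  have hgδ : ∀ j, g j < δ := fun j => (h3 j).trans_le (hδ0 (j + 1))
  have hcofδ : CofOm δ := ⟨fun n => (u n).1.top, hδ, hδ'⟩
  let s : Set Z := {α | (∃ j, α ∈ (u j).1.s) ∨ α = δ}
  have hs : ∀ j, ∀ α ≤ (u j).1.top, (α ∈ s ↔ α ∈ (u j).1.s) := by
    intro j α hα
    constructor
    · rintro (⟨i, hi⟩ | h)
      · rcases le_total i j with h | h
        · exact ((hanti i j h).2 α ((u i).1.le_top α hi)).2 hi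
        · exact ((hanti j i h).2 α hα).1 hi
      · exact absurd (h ▸ hα : δ ≤ (u j).1.top) (not_le.2 (hδ j))
    · intro h
      exact Or.inl ⟨j, h⟩
  let r : Cond Z :=
    { top := δ
      s := s
      le_top := by
        rintro α (⟨j, hj⟩ | h)
        · exact ((u j).1.le_top α hj).trans (hδ0 j)
        · exact h.le
      cof := by
        rintro α (⟨j, hj⟩ | h)
        · exact (u j).1.cof α hj
        · rw [h]; exact hcofδ
      nonref := by
        intro β hβ hlim hcof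
        rcases hβ.lt_or_eq with h | h
        · obtain ⟨j, hj⟩ := hδ' β h
          obtain ⟨D, hD1, hD2⟩ := (u j).1.nonref β hj.le hlim hcof
          refine ⟨D, hD1, fun γ hγ h' => hD2 γ hγ ⟨h'.1, ?_⟩⟩
          exact (hs j γ (hγ.le.trans hj.le)).1 h'.2
        · rw [h] at hcof
          exact absurd hcofδ hcof }
  have hru : ∀ j, r ≤ (u j).1 := fun j => ⟨hδ0 j, hs j⟩
  have hrq : r ≤ q := hru 0
  refine ⟨r, hrq, δ, ?_, meets_of_mem (Or.inr rfl)⟩
  refine meets_of_dense fun r' hr' => ?_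
  refine mem_fimp.1 ((down_ClubN C _ hq _ hrq).2 δ) r' hr' ⟨⟨_, hδ 0⟩, fun x => ?_⟩
  refine mem_fimp.2 fun r'' hr'' hx => ⟨r'', le_rfl, ?_⟩
  obtain ⟨j, hj⟩ := hδ' x hx
  refine mem_fex_of_mem (g j) (down_fand (down_fground _) (down_meets _))
    ⟨⟨hj.trans (h2 j), hgδ j⟩, ?_⟩
  exact down_meets _ _ (h4 j) _ (hr''.trans (hr'.trans (hru (j + 1))))

/-- the generic set is a nonreflecting stationary set -/
theorem forces_nonRef [WellFoundedLT Z] (hno : ∀ z : Z, ∃ z', z < z')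
    (hbd : ∀ f : ℕ → Z, ∃ b, ∀ j, f j ≤ b) (p : Cond Z) : p ∈ NonRefN (P := Cond Z) (Z := Z) Sn := by
  refine ⟨fun C => ?_, fun α => ?_, fun β => ?_⟩
  · refine mem_fimp.2 fun q _ hC => ?_
    obtain ⟨r, hr, α, h⟩ := forces_stationary hno hbd C q hC
    exact ⟨r, hr, mem_fex_of_mem α (down_fand (down_meets _) (down_meets _)) h⟩
  · refine mem_fimp.2 fun q _ hα => ?_
    obtain ⟨r, hr, t, ht, -⟩ := hα q le_rfl
    exact ⟨r, hr, cofOmN_of (t.cof α ht) r⟩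
  · refine mem_fimp.2 fun q _ hβ => ?_
    have hlim : IsLim β := hβ.1
    have hcof : ¬ CofOm β := fun h => hβ.2 q le_rfl (cofOmN_of h q)
    obtain ⟨r, hrq, hr⟩ : ∃ r ≤ q, β ≤ r.top := by
      rcases le_or_gt β q.top with h | h
      · exact ⟨q, le_rfl, h⟩
      · exact ⟨q.up β h, q.up_le β h, le_rfl⟩
    obtain ⟨D, hD1, hD2⟩ := r.nonref β hr hlim hcof
    refine ⟨r, hrq, mem_fex_of_mem (fun γ => fground (D γ)) ?_ ⟨clubInN_of hD1 r, fun γ => ?_⟩⟩
    · exact down_fand (down_ClubInN _ _) (down_fall fun _ => down_fimp _ _)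
    · refine mem_fimp.2 fun r' hr' hγ => ⟨r', le_rfl, fun r'' hr'' h => ?_⟩
      have h1 : D γ := mem_meets_fground.1 h.1
      have h2 : r'' ≤ r := hr''.trans hr'
      have hγ' : γ < β := hγ
      have h3 : γ ≤ r.top := hγ'.le.trans hr
      have h4 : γ ∈ r''.s := mem_of_meets_Sn (h3.trans h2.1) h.2
      exact hD2 γ hγ ⟨h1, (h2.2 γ h3).1 h4⟩

variable [WellFoundedLT Z] {κ : Cardinal.{0}} {K : Type} [LinearOrder K] [WellFoundedLT K]

/-- named subsets of `K` are decided -/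
theorem decide_set (hno : ∀ z : Z, ∃ z', z < z')
    (hbd : ∀ (J : Type) (f : J → Z), #J ≤ κ → ∃ b, ∀ j, f j ≤ b) (hK : #K ≤ κ)
    (x : K → Set (Cond Z)) (p : Cond Z) : ∃ q ≤ p, ∃ x0 : K → Prop,
      ∀ ξ, (x0 ξ → q ∈ meets (x ξ)) ∧ (¬ x0 ξ → q ∈ fnot (meets (x ξ))) := by
  obtain ⟨q, hq, h⟩ := decide_all hno hbd hK
    (fun ξ => {q | q ∈ meets (x ξ) ∨ q ∈ fnot (meets (x ξ))}) p (by
      intro ξ q _
      by_cases h : ∃ r ≤ q, r ∈ meets (x ξ)
      · obtain ⟨r, hr, h⟩ := h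
        exact ⟨r, hr, Or.inl h⟩
      · push Not at h
        exact ⟨q, le_rfl, Or.inr h⟩) (by
      rintro ξ q (h | h) r hr
      · exact Or.inl (down_meets _ _ h _ hr)
      · exact Or.inr (down_fnot _ _ h _ hr))
  refine ⟨q, hq, fun ξ => q ∈ meets (x ξ), fun ξ => ⟨fun h' => h', fun h' => ?_⟩⟩
  rcases h ξ with h | h
  · exact absurd h h'
  · exact h

/-- named functions on `K` are decided -/
theorem decide_fun {Y : Type} (hno : ∀ z : Z, ∃ z', z < z')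
    (hbd : ∀ (J : Type) (f : J → Z), #J ≤ κ → ∃ b, ∀ j, f j ≤ b) (hK : #K ≤ κ)
    (R : K → Y → Set (Cond Z)) (p : Cond Z) (hp : p ∈ IsFun R) : ∃ q ≤ p, ∃ g : K → Y,
      ∀ ξ, q ∈ meets (R ξ (g ξ)) := by
  obtain ⟨q, hq, h⟩ := decide_all hno hbd hK (fun ξ => {q | ∃ y, q ∈ meets (R ξ y)}) p (by
      intro ξ q hq
      exact IsFun.total (down_IsFun R _ hp _ hq) ξ) (by
      rintro ξ q ⟨y, h⟩ r hr
      exact ⟨y, down_meets _ _ h _ hr⟩)
  choose g hg using h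
  exact ⟨q, hq, g, hg⟩

theorem forces_noOnto (hno : ∀ z : Z, ∃ z', z < z')
    (hbd : ∀ (J : Type) (f : J → Z), #J ≤ κ → ∃ b, ∀ j, f j ≤ b) (hK : #K ≤ κ) (p : Cond Z) :
    p ∈ NoOnto (Cond Z) K Z := by
  intro q _ hq
  obtain ⟨r, hr, R, hR⟩ := mem_fex.1 hq q le_rfl
  obtain ⟨r1, hr1, g, hg⟩ := decide_fun hno hbd hK R r hR.1
  obtain ⟨b, hb⟩ := hbd K g hK
  obtain ⟨z, hz⟩ := hno b
  obtain ⟨r2, hr2, ξ, h⟩ := mem_fex.1 (hR.2 z) r1 hr1
  have h1 := IsFun.unique (down_IsFun R _ hR.1 _ (hr2.trans hr1)) h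
    (down_meets _ _ (hg ξ) _ hr2)
  rw [h1] at hz
  exact absurd hz (not_lt.2 (hb ξ))

theorem forces_meas (hno : ∀ z : Z, ∃ z', z < z')
    (hbd : ∀ (J : Type) (f : J → Z), #J ≤ κ → ∃ b, ∀ j, f j ≤ b) (hK : #K ≤ κ) {Y : Type}
    {E : Y → K → Prop} (hE : IsMeas E) (p : Cond Z) :
    p ∈ IsMeasN (P := Cond Z) (fun y ξ => fground (E y ξ)) := by
  obtain ⟨hE1, hE2, hE3, hE4⟩ := hE
  refine ⟨fun y x => ?_, fun x => ?_, fun η g => ?_, fun y => ?_⟩
  · refine mem_fimp.2 fun q _ hq => ?_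
    obtain ⟨r, hr, x0, hx0⟩ := decide_set hno hbd hK x q
    obtain ⟨y', hy'⟩ := hE1 y x0 fun ξ hξ => by
      by_contra hcon
      obtain ⟨r', hr', h⟩ := mem_fimp.1 (hq ξ) r hr (mem_meets_fground.2 hξ)
      exact (hx0 ξ).2 hcon r' hr' h
    refine ⟨r, hr, mem_fex_of_mem y' (down_fall fun _ => down_fiff _ _) fun ξ => ?_⟩
    exact fiff_of (fun h => (hx0 ξ).1 ((hy' ξ).1 h)) fun h => (hx0 ξ).2 fun h' => h ((hy' ξ).2 h')
  · refine mem_fimp.2 fun q _ hq => ?_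
    obtain ⟨r, hr, x0, hx0⟩ := decide_set hno hbd hK x q
    obtain ⟨y, hy⟩ := hE2 x0 (by
      rintro ⟨y, hy⟩
      refine hq r hr (mem_fex_of_mem y (down_fall fun _ => down_fiff _ _) fun ξ => ?_)
      exact fiff_of (fun h => (hx0 ξ).1 ((hy ξ).1 h)) fun h => (hx0 ξ).2 fun h' => h ((hy ξ).2 h'))
    refine ⟨r, hr, mem_fex_of_mem y (down_fall fun _ => down_fiff _ _) fun ξ => ?_⟩
    refine fiff_of_not (fun h => (hx0 ξ).2 ((hy ξ).1 h)) fun h => (hx0 ξ).1 ?_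
    by_contra hcon
    exact h ((hy ξ).2 hcon)
  · refine mem_fimp.2 fun q _ hq => ?_
    obtain ⟨r, hr, g0, hg0⟩ := decide_fun hno hbd hK g q hq
    obtain ⟨y, hy⟩ := hE3 η g0
    refine ⟨r, hr, mem_fex_of_mem y (down_fall fun _ => down_fiff _ _) fun ξ => ⟨?_, ?_⟩⟩
    · refine mem_fimp.2 fun r1 hr1 h1 => ⟨r1, le_rfl, fun ζ z => ?_⟩
      refine mem_fimp.2 fun r2 hr2 h2 => ⟨r2, le_rfl, ?_⟩
      have h3 := IsFun.unique (down_IsFun g _ hq _ (hr2.trans (hr1.trans hr))) h2.2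
        (down_meets _ _ (hg0 ζ) _ (hr2.trans hr1))
      rw [h3]
      exact mem_meets_fground.2 ((hy ξ).1 (mem_meets_fground.1 h1) ζ h2.1)
    · refine mem_fimp.2 fun r1 hr1 h1 => ⟨r1, le_rfl, mem_meets_fground.2 ((hy ξ).2 ?_)⟩
      intro ζ hζ
      obtain ⟨r2, -, h2⟩ := mem_fimp.1 (h1 ζ (g0 ζ)) r1 le_rfl
        ⟨hζ, down_meets _ _ (hg0 ζ) _ hr1⟩
      exact mem_meets_fground.1 h2
  · obtain ⟨ξ, ξ', h1, h2, h3⟩ := hE4 y
    refine mem_fex_of_mem ξ (down_fex _) (mem_fex_of_mem ξ' ?_ ⟨h1, mem_meets_fground.2 h2,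
      mem_meets_fground.2 h3⟩)
    exact down_fand (down_fground _) (down_fand (down_meets _) (down_meets _))

end

end Pool.Agent.W869.CC
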