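import Pool.Agent.W869.CC.Equiv
import Pool.Agent.W869.CC.Forc2

/-!
# The hypothesis is forced
-/

set_option autoImplicit false

namespace Pool.Agent.W869.CC

open Cardinal Pool.Agent.Helper669.Forcing

theorem hypothesis_iff (κ : Cardinal.{0}) : Hypothesis κ ↔
    IsMeasurable κ ∧ ∃ S : Set (Order.succ κ).ord.ToType, Nonreflecting S := by
  constructor
  · rintro ⟨h1, ⟨Y, E, hE⟩, -, S, hS⟩
    have hne : Nonempty κ.ord.ToType := by
      obtain ⟨y, hy⟩ : ∃ y : Y, True := by
        by_contra hcon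
        push Not at hcon
        obtain ⟨y, -⟩ := hE.2.1 (fun _ => True) (by
          rintro ⟨y, -⟩
          exact hcon y)
        exact hcon y
      obtain ⟨ξ, -⟩ := hE.2.2.2 y
      exact ⟨ξ⟩
    have h0 : ℵ₀ < κ := by
      by_contra hcon
      rw [not_lt, ← mk_ord_toType κ, Cardinal.mk_le_aleph0_iff] at hcon
      exact h1 (exists_surjective_nat _)
    have hreg' : (Order.succ κ).IsRegular := Cardinal.isRegular_succ h0.le
    exact ⟨isMeasurable_iff.2 ⟨h0, Y, E, hE⟩, {x | S x},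
      (nonRef_iff (exists_gt hreg') {x | S x}).1 hS⟩
  · rintro ⟨h1, S, hS⟩
    have h0 := h1.1
    have hreg' : (Order.succ κ).IsRegular := Cardinal.isRegular_succ h0.le
    refine ⟨?_, (isMeasurable_iff.1 h1).2, ?_, fun x => x ∈ S,
      (nonRef_iff (exists_gt hreg') S).2 hS⟩
    · rintro ⟨f, hf⟩
      have h2 := Cardinal.mk_le_of_surjective hf
      rw [mk_ord_toType, Cardinal.mk_nat] at h2
      exact absurd h0 (not_lt.2 h2)
    · rintro ⟨f, hf⟩
      have h2 := Cardinal.mk_le_of_surjective hf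
      rw [mk_ord_toType, mk_ord_toType] at h2
      exact absurd (Order.lt_succ κ) (not_lt.2 h2)

theorem down_IsMeasN {P K Y : Type} [Preorder P] [LinearOrder K] (E : Y → K → Set P) :
    Down (IsMeasN E) :=
  down_fand (down_fall fun _ => down_fall fun _ => down_fimp _ _)
    (down_fand (down_fall fun _ => down_fimp _ _)
      (down_fand (down_fall fun _ => down_fall fun _ => down_fimp _ _)
        (down_fall fun _ => down_fex _)))

theorem down_NonRefN {P Z : Type} [Preorder P] [LinearOrder Z] (S : Z → Set P) :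
    Down (NonRefN S) :=
  down_fand (down_fall fun _ => down_fimp _ _)
    (down_fand (down_fall fun _ => down_fimp _ _) (down_fall fun _ => down_fimp _ _))

theorem forced {κ : Cardinal.{0}} (hκ : IsMeasurable κ) : ∃ (P : Type) (_ : Preorder P),
    Nonempty P ∧ ∀ p : P, p ∈ HypothesisN P κ := by
  have h0 := hκ.1
  have hreg' : (Order.succ κ).IsRegular := Cardinal.isRegular_succ h0.le
  let Z := (Order.succ κ).ord.ToType
  have hno : ∀ z : Z, ∃ z', z < z' := exists_gt hreg'
  have hbd : ∀ (J : Type) (f : J → Z), #J ≤ κ → ∃ b, ∀ j, f j ≤ b := by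
    intro J f hJ
    obtain ⟨b, hb⟩ := exists_bound hreg' (Set.range f)
      (Cardinal.mk_range_le.trans_lt (hJ.trans_lt (Order.lt_succ κ)))
    exact ⟨b, fun n => (hb _ ⟨n, rfl⟩).le⟩
  have hN : #ℕ ≤ κ := by rw [Cardinal.mk_nat]; exact h0.le
  have hK : #κ.ord.ToType ≤ κ := (mk_ord_toType κ).le
  obtain ⟨-, Y, E, hE⟩ := isMeasurable_iff.1 hκ
  have hZ : Nonempty Z := by
    rw [← Cardinal.mk_ne_zero_iff, mk_ord_toType]
    exact (Cardinal.aleph0_pos.trans (h0.trans (Order.lt_succ κ))).ne'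
  refine ⟨Cond Z, inferInstance, ⟨Classical.choice hZ, ∅, fun α hα => absurd hα (by simp),
    fun α hα => absurd hα (by simp), fun β _ hlim _ => ⟨fun _ => True, ⟨fun δ hδ => ?_,
      fun _ _ _ _ => trivial⟩, fun γ _ h => absurd h.2 (by simp)⟩⟩, fun p => ⟨?_, ?_, ?_, ?_⟩⟩
  · obtain ⟨γ, h1, h2⟩ := hlim.2 δ hδ
    exact ⟨γ, h1, h2, trivial⟩
  · intro q _ hq
    obtain ⟨r, hr, R, hR⟩ := mem_fex.1 hq q le_rfl
    obtain ⟨r1, hr1, g, hg⟩ := decide_fun hno hbd hN R r hR.1
    have hg' : ¬ Function.Surjective g := by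
      intro hs
      have h2 := Cardinal.mk_le_of_surjective hs
      rw [mk_ord_toType, Cardinal.mk_nat] at h2
      exact absurd h0 (not_lt.2 h2)
    obtain ⟨z, hz⟩ := not_forall.1 hg'
    obtain ⟨r2, hr2, ξ, h⟩ := mem_fex.1 (hR.2 z) r1 hr1
    exact hz ⟨ξ, (IsFun.unique (down_IsFun R _ hR.1 _ (hr2.trans hr1)) h
      (down_meets _ _ (hg ξ) _ hr2)).symm⟩
  · exact mem_fex_of_mem Y (down_fex _) (mem_fex_of_mem (fun y ξ => fground (E y ξ))
      (down_IsMeasN _) (forces_meas hno hbd hK hE p))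
  · exact forces_noOnto hno hbd hK p
  · exact mem_fex_of_mem Sn (down_NonRefN _)
      (forces_nonRef hno (fun f => hbd ℕ f hN) p)

end Pool.Agent.W869.CC
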