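import Pool.Agent.W869.CC.FDefs

/-!
# The forcing which adds a nonreflecting stationary set
-/

set_option autoImplicit false

namespace Pool.Agent.W869.CC

open Cardinal Pool.Agent.Helper669.Forcing

section
variable {Z : Type} [LinearOrder Z]

/-- conditions: nonreflecting sets of points of countable cofinality below some point -/
structure Cond (Z : Type) [LinearOrder Z] where
  top : Z
  s : Set Z
  le_top : ∀ α ∈ s, α ≤ top
  cof : ∀ α ∈ s, CofOm α
  nonref : ∀ β ≤ top, IsLim β → ¬ CofOm β →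
    ∃ C : Z → Prop, ClubIn C β ∧ ∀ γ < β, ¬ (C γ ∧ γ ∈ s)

instance : Preorder (Cond Z) where
  le q p := p.top ≤ q.top ∧ ∀ α ≤ p.top, (α ∈ q.s ↔ α ∈ p.s)
  le_refl p := ⟨le_rfl, fun _ _ => Iff.rfl⟩
  le_trans a b c h1 h2 := ⟨h2.1.trans h1.1, fun α hα => (h1.2 α (hα.trans h2.1)).trans
    (h2.2 α hα)⟩

theorem Cond.le_def {q p : Cond Z} : q ≤ p ↔ p.top ≤ q.top ∧ ∀ α ≤ p.top, (α ∈ q.s ↔ α ∈ p.s) :=
  Iff.rfl

/-- raising the top -/
def Cond.up (p : Cond Z) (z : Z) (hz : p.top < z) : Cond Z where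
  top := z
  s := p.s
  le_top α hα := (p.le_top α hα).trans hz.le
  cof := p.cof
  nonref β hβ hlim hcof := by
    rcases le_or_gt β p.top with h | h
    · exact p.nonref β h hlim hcof
    · refine ⟨fun γ => p.top < γ, ⟨fun δ hδ => ?_, fun α hα _ h2 => ?_⟩, ?_⟩
      · obtain ⟨γ, h1, h2⟩ := hlim.2 (max δ p.top) (max_lt hδ h)
        exact ⟨γ, (le_max_left _ _).trans_lt h1, h2, (le_max_right _ _).trans_lt h1⟩
      · obtain ⟨δ, hδ⟩ := ‹∃ δ, δ < α›
        obtain ⟨γ, -, h3, h4⟩ := h2 δ hδ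
        exact h4.trans h3
      · rintro γ - ⟨h1, h2⟩
        exact absurd (p.le_top γ h2) (not_le.2 h1)

theorem Cond.up_le (p : Cond Z) (z : Z) (hz : p.top < z) : p.up z hz ≤ p :=
  ⟨hz.le, fun _ _ => Iff.rfl⟩

/-- conditions with a closed set avoiding them -/
structure PS (Z : Type) [LinearOrder Z] where
  p : Cond Z
  c : Set Z
  top_mem : p.top ∈ c
  c_le : ∀ γ ∈ c, γ ≤ p.top
  closed : ∀ α ≤ p.top, (∃ δ, δ < α) → (∀ δ < α, ∃ γ, δ < γ ∧ γ < α ∧ γ ∈ c) → α ∈ c
  disj : ∀ γ ∈ c, γ ∉ p.s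

instance : Preorder (PS Z) where
  le r q := r.p ≤ q.p ∧ ∀ α ≤ q.p.top, (α ∈ r.c ↔ α ∈ q.c)
  le_refl p := ⟨le_rfl, fun _ _ => Iff.rfl⟩
  le_trans a b c h1 h2 := ⟨h1.1.trans h2.1, fun α hα => (h1.2 α (hα.trans h2.1.1)).trans
    (h2.2 α hα)⟩

/-- lower bounds of chains -/
theorem PS.glb [WellFoundedLT Z] {J : Type} [LinearOrder J] [Nonempty J] (q : J → PS Z)
    (hq : ∀ i j, i ≤ j → q j ≤ q i) (hb : ∃ b, ∀ j, (q j).p.top ≤ b) : ∃ r, ∀ j, r ≤ q j := by
  classical
  let δ := wellFounded_lt.min {b : Z | ∀ j, (q j).p.top ≤ b} hb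
  have hδ : ∀ j, (q j).p.top ≤ δ := wellFounded_lt.min_mem {b : Z | ∀ j, (q j).p.top ≤ b} hb
  have hδ' : ∀ x < δ, ∃ j, x < (q j).p.top := by
    intro x hx
    by_contra hcon
    push Not at hcon
    exact wellFounded_lt.not_lt_min {b : Z | ∀ j, (q j).p.top ≤ b} (show x ∈ {b : Z | ∀ j, (q j).p.top ≤ b}
      from hcon) hx
  let s : Set Z := {α | ∃ j, α ∈ (q j).p.s}
  let c' : Set Z := {α | ∃ j, α ∈ (q j).c}
  have hs : ∀ j, ∀ α ≤ (q j).p.top, (α ∈ s ↔ α ∈ (q j).p.s) := by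
    intro j α hα
    constructor
    · rintro ⟨i, hi⟩
      rcases le_total i j with h | h
      · exact ((hq i j h).1.2 α ((q i).p.le_top α hi)).2 hi
      · exact ((hq j i h).1.2 α hα).1 hi
    · intro h
      exact ⟨j, h⟩
  have hc : ∀ j, ∀ α ≤ (q j).p.top, (α ∈ c' ↔ α ∈ (q j).c) := by
    intro j α hα
    constructor
    · rintro ⟨i, hi⟩
      rcases le_total i j with h | h
      · exact ((hq i j h).2 α ((q i).c_le α hi)).2 hi
      · exact ((hq j i h).2 α hα).1 hi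
    · intro h
      exact ⟨j, h⟩
  have hcl : ∀ α < δ, (∃ δ, δ < α) → (∀ δ < α, ∃ γ, δ < γ ∧ γ < α ∧ γ ∈ c') → α ∈ c' := by
    intro α hα h1 h2
    obtain ⟨j, hj⟩ := hδ' α hα
    refine (hc j α hj.le).2 ((q j).closed α hj.le h1 fun δ hδ => ?_)
    obtain ⟨γ, h3, h4, h5⟩ := h2 δ hδ
    exact ⟨γ, h3, h4, (hc j γ (h4.le.trans hj.le)).1 h5⟩
  have hdisj : ∀ γ ∈ c', γ ∉ s := by
    rintro γ ⟨j, hj⟩ h
    have h1 : γ ≤ (q j).p.top := (q j).c_le γ hj
    exact (q j).disj γ hj ((hs j γ h1).1 h)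
  have hcle : ∀ γ ∈ c', γ ≤ δ := by
    rintro γ ⟨j, hj⟩
    exact ((q j).c_le γ hj).trans (hδ j)
  have hδs : δ ∉ s := by
    rintro ⟨j, hj⟩
    have h1 : δ ≤ (q j).p.top := (q j).p.le_top δ hj
    have h2 : (q j).p.top = δ := le_antisymm (hδ j) h1
    have h3 := (q j).top_mem
    rw [h2] at h3
    exact (q j).disj δ h3 hj
  let r : PS Z :=
    { p :=
        { top := δ
          s := s
          le_top := by
            rintro α ⟨j, hj⟩
            exact ((q j).p.le_top α hj).trans (hδ j)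
          cof := by
            rintro α ⟨j, hj⟩
            exact (q j).p.cof α hj
          nonref := by
            intro β hβ hlim hcof
            by_cases h : ∃ j, β ≤ (q j).p.top
            · obtain ⟨j, hj⟩ := h
              obtain ⟨C, hC1, hC2⟩ := (q j).p.nonref β hj hlim hcof
              refine ⟨C, hC1, fun γ hγ h => hC2 γ hγ ⟨h.1, ?_⟩⟩
              exact (hs j γ (hγ.le.trans hj)).1 h.2
            · push Not at h
              have hβ' : β = δ := by
                refine le_antisymm hβ ?_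
                by_contra hcon
                rw [not_le] at hcon
                obtain ⟨j, hj⟩ := hδ' β hcon
                exact absurd hj (not_lt.2 (h j).le)
              subst hβ'
              refine ⟨fun γ => γ ∈ c', ⟨fun x hx => ?_, ?_⟩, ?_⟩
              · obtain ⟨j, hj⟩ := hδ' x hx
                exact ⟨_, hj, h j, j, (q j).top_mem⟩
              · exact hcl
              · rintro γ - ⟨h1, h2⟩
                exact hdisj γ h1 h2 }
      c := {α | α ∈ c' ∨ α = δ}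
      top_mem := Or.inr rfl
      c_le := by
        rintro γ (h | h)
        · exact hcle γ h
        · exact h.le
      closed := by
        intro α hα h1 h2
        rcases hα.lt_or_eq with h | h
        · left
          refine hcl α h h1 fun x hx => ?_
          obtain ⟨γ, h3, h4, h5 | h5⟩ := h2 x hx
          · exact ⟨γ, h3, h4, h5⟩
          · exact absurd (h4.trans h) (by rw [h5]; exact lt_irrefl _)
        · exact Or.inr h
      disj := by
        rintro γ (h | h)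
        · exact hdisj γ h
        · rw [h]; exact hδs }
  refine ⟨r, fun j => ⟨⟨hδ j, hs j⟩, fun α hα => ?_⟩⟩
  constructor
  · rintro (h | h)
    · exact (hc j α hα).1 h
    · have h2 : (q j).p.top = α := le_antisymm ((hδ j).trans h.ge) hα
      rw [← h2]
      exact (q j).top_mem
  · intro h
    exact Or.inl ((hc j α hα).2 h)

theorem PS.exists_le (r : PS Z) (hno : ∀ z : Z, ∃ z', z < z') {p' : Cond Z} (h : p' ≤ r.p) :
    ∃ r' ≤ r, r'.p ≤ p' := by
  obtain ⟨z, hz⟩ := hno p'.top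
  have hrz : ∀ γ ∈ r.c, γ < z := fun γ hγ => ((r.c_le γ hγ).trans h.1).trans_lt hz
  refine ⟨PS.mk (p'.up z hz) {α | α ∈ r.c ∨ α = z} (Or.inr rfl) ?_ ?_ ?_,
    ⟨(p'.up_le z hz).trans h, fun α hα => ?_⟩, p'.up_le z hz⟩
  · rintro γ (hγ | hγ)
    · exact (hrz γ hγ).le
    · exact hγ.le
  · intro α hα h1 h2
    left
    have h3 : ∀ δ < α, ∃ γ, δ < γ ∧ γ < α ∧ γ ∈ r.c := by
      intro δ hδ
      obtain ⟨γ, h3, h4, h5 | h5⟩ := h2 δ hδ
      · exact ⟨γ, h3, h4, h5⟩
      · have : z < α := by rw [← h5]; exact h4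
        exact absurd this (not_lt.2 hα)
    refine r.closed α ?_ h1 h3
    by_contra hcon
    rw [not_le] at hcon
    obtain ⟨γ, h4, -, h5⟩ := h3 _ hcon
    exact absurd (r.c_le γ h5) (not_le.2 h4)
  · rintro γ (hγ | hγ) hs
    · have h4 : γ ∈ r.p.s := (h.2 γ (r.c_le γ hγ)).1 hs
      exact r.disj γ hγ h4
    · rw [hγ] at hs
      exact absurd (p'.le_top z hs) (not_le.2 hz)
  · constructor
    · rintro (hγ | hγ)
      · exact hγ
      · rw [hγ] at hα
        exact absurd (hα.trans h.1) (not_le.2 hz)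
    · intro hγ
      exact Or.inl hγ

theorem PS.exists_start (p : Cond Z) (hno : ∀ z : Z, ∃ z', z < z') : ∃ r : PS Z, r.p ≤ p := by
  obtain ⟨z, hz⟩ := hno p.top
  refine ⟨PS.mk (p.up z hz) {z} rfl ?_ ?_ ?_, p.up_le z hz⟩
  · rintro γ rfl
    exact le_rfl
  · rintro α hα ⟨δ, hδ⟩ h2
    obtain ⟨γ, -, h4, rfl⟩ := h2 δ hδ
    exact absurd h4 (not_lt.2 hα)
  · rintro γ rfl hs
    exact absurd (p.le_top _ hs) (not_le.2 hz)

/-- distributivity -/
theorem decide_all [WellFoundedLT Z] {κ : Cardinal.{0}} (hno : ∀ z : Z, ∃ z', z < z')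
    (hbd : ∀ (J : Type) (f : J → Z), #J ≤ κ → ∃ b, ∀ j, f j ≤ b)
    {K : Type} [LinearOrder K] [WellFoundedLT K] (hK : #K ≤ κ) (D : K → Set (Cond Z)) (p : Cond Z)
    (hD : ∀ ξ, ∀ q ≤ p, ∃ r ≤ q, r ∈ D ξ) (hdown : ∀ ξ, Down (D ξ)) :
    ∃ q ≤ p, ∀ ξ, q ∈ D ξ := by
  classical
  obtain ⟨r0, hr0⟩ := PS.exists_start p hno
  have hstep : ∀ (ξ : K) (r : PS Z), r ≤ r0 → ∃ r' ≤ r, r'.p ∈ D ξ := by
    intro ξ r hr
    obtain ⟨q, hq, hqD⟩ := hD ξ r.p (hr.1.trans hr0)
    obtain ⟨r', h1, h2⟩ := r.exists_le hno hq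
    exact ⟨r', h1, hdown ξ _ hqD _ h2⟩
  let Good : (x : K) → ((y : K) → y < x → PS Z) → PS Z → Prop := fun x f r =>
    r.p ∈ D x ∧ r ≤ r0 ∧ ∀ (y : K) (hy : y < x), r ≤ f y hy
  let R : K → PS Z := wellFounded_lt.fix fun x f =>
    if h : ∃ r, Good x f r then h.choose else r0
  have hR : ∀ x, R x = if h : ∃ r, Good x (fun y _ => R y) r then h.choose else r0 := fun x =>
    wellFounded_lt.fix_eq _ x
  have hgood : ∀ x, Good x (fun y _ => R y) (R x) := by
    intro x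
    refine wellFounded_lt.induction (C := fun x => Good x (fun y _ => R y) (R x)) x ?_
    intro x ih
    have hex : ∃ r, Good x (fun y _ => R y) r := by
      by_cases hne : Nonempty (Set.Iio x)
      · obtain ⟨r1, hr1⟩ := PS.glb (J := Set.Iio x) (fun y => R y.1) (by
          intro i j hij
          rcases hij.lt_or_eq with h | h
          · exact (ih j.1 j.2).2.2 i.1 h
          · rw [h]) (hbd _ _ ((Cardinal.mk_set_le _).trans hK))
        have hr10 : r1 ≤ r0 := (hr1 (Classical.choice hne)).trans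
          (ih (Classical.choice hne).1 (Classical.choice hne).2).2.1
        obtain ⟨r', h1, h2⟩ := hstep x r1 hr10
        exact ⟨r', h2, h1.trans hr10, fun y hy => h1.trans (hr1 ⟨y, hy⟩)⟩
      · obtain ⟨r', h1, h2⟩ := hstep x r0 le_rfl
        exact ⟨r', h2, h1, fun y hy => absurd ⟨⟨y, hy⟩⟩ hne⟩
    rw [hR x, dif_pos hex]
    exact hex.choose_spec
  by_cases hne : Nonempty K
  · obtain ⟨r1, hr1⟩ := PS.glb (J := K) R (by
      intro i j hij
      rcases hij.lt_or_eq with h | h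
      · exact (hgood j).2.2 i h
      · rw [h]) (hbd _ _ hK)
    have hr10 : r1 ≤ r0 := (hr1 (Classical.choice hne)).trans (hgood (Classical.choice hne)).2.1
    exact ⟨r1.p, hr10.1.trans hr0, fun ξ => hdown ξ _ (hgood ξ).1 _ (hr1 ξ).1⟩
  · exact ⟨p, le_rfl, fun ξ => absurd ⟨ξ⟩ hne⟩

end

end Pool.Agent.W869.CC
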