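import Pool.Agent.W869.CC.Ideal
import Pool.Agent.W869.CC.Defs

/-!
# The ideal cut and choose game
-/

set_option autoImplicit false

namespace Pool.Agent.W869.CC

open Cardinal

section
variable {K : Type}

/-- the current set after `α` stages, when Cut plays `A` -/
def current (σ : Strategy K) (A : Ordinal.{0} → Set K) (α : Ordinal.{0}) : Set K :=
  {x | ∀ β < α, (x ∈ A β ↔ σ β (fun δ _ => A δ) = true)}

theorem current_anti (σ : Strategy K) (A : Ordinal.{0} → Set K) {α β : Ordinal.{0}} (h : α ≤ β) :
    current σ A β ⊆ current σ A α := fun _ hx δ hδ => hx δ (hδ.trans_le h)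

theorem current_congr (σ : Strategy K) {A A' : Ordinal.{0} → Set K} {α : Ordinal.{0}}
    (h : ∀ β < α, A β = A' β) : current σ A α = current σ A' α := by
  ext x
  have h1 : ∀ β < α, (fun (δ : Ordinal.{0}) (_ : δ ≤ β) => A δ) = fun δ _ => A' δ := by
    intro β hβ
    funext δ hδ
    exact h δ (hδ.trans_lt hβ)
  constructor
  · intro hx β hβ
    rw [← h β hβ, ← h1 β hβ]
    exact hx β hβ
  · intro hx β hβ
    rw [h β hβ, h1 β hβ]
    exact hx β hβ

theorem current_zero (σ : Strategy K) (A : Ordinal.{0} → Set K) : current σ A 0 = Set.univ := by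
  ext x
  simp only [current, Set.mem_univ, iff_true]
  intro β hβ
  exact absurd hβ (not_lt.2 zero_le)

theorem current_succ (σ : Strategy K) (A : Ordinal.{0} → Set K) (α : Ordinal.{0})
    (hA : A α ⊆ current σ A α) : current σ A (Order.succ α) =
      if σ α (fun β _ => A β) = true then A α else current σ A α \ A α := by
  ext x
  by_cases hσ : σ α (fun β _ => A β) = true
  · rw [if_pos hσ]
    constructor
    · intro hx
      exact (hx α (Order.lt_succ α)).2 hσ
    · intro hx β hβ
      rcases (Order.lt_succ_iff.1 hβ).lt_or_eq with h | h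
      · exact hA hx β h
      · subst h
        exact ⟨fun _ => hσ, fun _ => hx⟩
  · rw [if_neg hσ]
    constructor
    · intro hx
      exact ⟨fun β hβ => hx β (hβ.trans (Order.lt_succ α)), fun h =>
        hσ ((hx α (Order.lt_succ α)).1 h)⟩
    · rintro ⟨hx, hx'⟩ β hβ
      rcases (Order.lt_succ_iff.1 hβ).lt_or_eq with h | h
      · exact hx β h
      · subst h
        exact ⟨fun h => absurd h hx', fun h => absurd h hσ⟩

theorem current_limit (σ : Strategy K) (A : Ordinal.{0} → Set K) {α : Ordinal.{0}}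
    (hα : Order.IsSuccLimit α) : current σ A α = ⋂ β : Set.Iio α, current σ A β := by
  ext x
  simp only [Set.mem_iInter]
  constructor
  · intro hx β
    exact current_anti σ A (le_of_lt β.2) hx
  · intro hx β hβ
    exact hx ⟨Order.succ β, hα.succ_lt hβ⟩ β (Order.lt_succ β)

/-- runs are given by the moves of Cut -/
theorem isRun_current (σ : Strategy K) (γ : Ordinal.{0}) (A : Ordinal.{0} → Set K)
    (hA : ∀ α < γ, A α ⊆ current σ A α) : IsRun σ γ A (current σ A) :=
  ⟨current_zero σ A, hA, fun α hα => current_succ σ A α (hA α hα),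
    fun _ _ h => current_limit σ A h⟩

theorem IsRun.eq_current {σ : Strategy K} {γ : Ordinal.{0}} {A X : Ordinal.{0} → Set K}
    (h : IsRun σ γ A X) : ∀ α ≤ γ, X α = current σ A α := by
  intro α
  induction α using Ordinal.limitRecOn with
  | zero => intro _; rw [h.start, current_zero]
  | add_one α ih =>
    intro hα
    rw [← Order.succ_eq_add_one] at hα ⊢
    have h1 : α < γ := (Order.lt_succ α).trans_le hα
    have h2 := ih h1.le
    rw [h.pick α h1, current_succ σ A α (by rw [← h2]; exact h.cut α h1), h2]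
  | limit α hlim ih =>
    intro hα
    rw [h.limit α hα hlim, current_limit σ A hlim]
    exact Set.iInter_congr fun β => ih β β.2 ((le_of_lt β.2).trans hα)

theorem chooseWins_iff (I : Set (Set K)) (γ : Ordinal.{0}) : ChooseWins I γ ↔
    ∃ σ : Strategy K, ∀ A : Ordinal.{0} → Set K, (∀ α < γ, A α ⊆ current σ A α) →
      current σ A γ ∉ I := by
  constructor
  · rintro ⟨σ, hσ⟩
    exact ⟨σ, fun A hA => hσ A _ (isRun_current σ γ A hA)⟩
  · rintro ⟨σ, hσ⟩
    refine ⟨σ, fun A X h => ?_⟩
    rw [h.eq_current γ le_rfl]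
    exact hσ A fun α hα => by
      rw [← h.eq_current α hα.le]
      exact h.cut α hα

/-- positions of countable length -/
structure Pos (σ : Strategy K) where
  A : Ordinal.{0} → Set K
  l : Ordinal.{0}
  hl : l < Ordinal.omega 1
  legal : ∀ α < l, A α ⊆ current σ A α

namespace Pos
variable {σ : Strategy K}

instance : Preorder (Pos σ) where
  le q p := p.l ≤ q.l ∧ ∀ α < p.l, q.A α = p.A α
  le_refl p := ⟨le_rfl, fun _ _ => rfl⟩
  le_trans a b c h1 h2 := ⟨h2.1.trans h1.1, fun α hα => (h1.2 α (hα.trans_le h2.1)).trans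
    (h2.2 α hα)⟩

/-- the current set -/
def X (p : Pos σ) : Set K := current σ p.A p.l

theorem X_anti {p q : Pos σ} (h : q ≤ p) : q.X ⊆ p.X := by
  unfold X
  rw [← current_congr σ h.2]
  exact current_anti σ q.A h.1

/-- the empty position -/
def root : Pos σ where
  A _ := ∅
  l := 0
  hl := (Ordinal.omega_pos 1)
  legal α hα := absurd hα (not_lt.2 zero_le)

/-- offering a set -/
theorem offer (p : Pos σ) (E : Set K) : ∃ q ≤ p, q.X = p.X ∩ E ∨ q.X = p.X \ E := by
  classical
  let A' : Ordinal.{0} → Set K := fun α => if α < p.l then p.A α else p.X ∩ E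
  have hA' : ∀ α < p.l, A' α = p.A α := fun α hα => if_pos hα
  have hA'' : A' p.l = p.X ∩ E := if_neg (lt_irrefl _)
  have hcur : ∀ α ≤ p.l, current σ A' α = current σ p.A α := fun α hα =>
    current_congr σ fun β hβ => hA' β (hβ.trans_le hα)
  have hleg : ∀ α < Order.succ p.l, A' α ⊆ current σ A' α := by
    intro α hα
    rcases (Order.lt_succ_iff.1 hα).lt_or_eq with h | h
    · rw [hA' α h, hcur α h.le]
      exact p.legal α h
    · rw [h, hA'', hcur p.l le_rfl]
      exact Set.inter_subset_left
  have hlim : Order.IsSuccLimit (Ordinal.omega 1) := by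
    rw [← Cardinal.ord_aleph]
    exact Cardinal.isSuccLimit_ord (Cardinal.aleph0_le_aleph 1)
  refine ⟨⟨A', Order.succ p.l, hlim.succ_lt p.hl, hleg⟩, ⟨Order.le_succ _, hA'⟩, ?_⟩
  have h1 := current_succ σ A' p.l (hleg p.l (Order.lt_succ _))
  rw [hA'', hcur p.l le_rfl] at h1
  by_cases hσ : σ p.l (fun β _ => A' β) = true
  · left
    rw [if_pos hσ] at h1
    exact h1
  · right
    rw [if_neg hσ] at h1
    show current σ A' (Order.succ p.l) = _
    rw [h1]
    ext x
    constructor
    · rintro ⟨hx1, hx2⟩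
      exact ⟨hx1, fun h => hx2 ⟨hx1, h⟩⟩
    · rintro ⟨hx1, hx2⟩
      exact ⟨hx1, fun h => hx2 h.2⟩

/-- limits of countable sequences -/
theorem lim (p : ℕ → Pos σ) (hp : ∀ n, p (n + 1) ≤ p n) : ∃ q, ∀ n, q ≤ p n := by
  classical
  have hanti : ∀ m n, m ≤ n → p n ≤ p m := by
    intro m n h
    induction n, h using Nat.le_induction with
    | base => exact le_rfl
    | succ n _ ih => exact (hp n).trans ih
  have hag : ∀ m n α, α < (p m).l → α < (p n).l → (p m).A α = (p n).A α := by
    intro m n α h1 h2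
    rcases le_total m n with h | h
    · exact ((hanti m n h).2 α h1).symm
    · exact (hanti n m h).2 α h2
  let A' : Ordinal.{0} → Set K := fun α => if h : ∃ n, α < (p n).l then (p h.choose).A α else ∅
  have hA' : ∀ n α, α < (p n).l → A' α = (p n).A α := by
    intro n α h
    have h' : ∃ n, α < (p n).l := ⟨n, h⟩
    simp only [A']
    rw [dif_pos h']
    exact hag _ _ α h'.choose_spec h
  refine ⟨⟨A', ⨆ n, (p n).l, Ordinal.iSup_lt_omega_one fun n => (p n).hl, ?_⟩, ?_⟩
  · intro α hα
    obtain ⟨n, hn⟩ := (Ordinal.lt_iSup_iff).1 hα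
    rw [hA' n α hn, current_congr σ (A' := (p n).A) fun β hβ => hA' n β (hβ.trans hn)]
    exact (p n).legal α hn
  · intro n
    exact ⟨Ordinal.le_iSup (fun n => (p n).l) n, hA' n⟩

/-- the current set at a position according to a winning strategy is positive -/
theorem X_notMem {I : Set (Set K)} (hI : ∀ X ∈ I, ∀ Y ⊆ X, Y ∈ I) {γ : Ordinal.{0}}
    (hγ : Ordinal.omega 1 ≤ γ) (hσ : ∀ A : Ordinal.{0} → Set K,
      (∀ α < γ, A α ⊆ current σ A α) → current σ A γ ∉ I) (p : Pos σ) : p.X ∉ I := by
  classical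
  intro hX
  let A' : Ordinal.{0} → Set K := fun α => if α < p.l then p.A α else ∅
  have hA' : ∀ α < p.l, A' α = p.A α := fun α hα => if_pos hα
  refine hσ A' (fun α _ => ?_) (hI _ hX _ ?_)
  · by_cases h : α < p.l
    · rw [hA' α h, current_congr σ (A' := p.A) fun β hβ => hA' β (hβ.trans h)]
      exact p.legal α h
    · have : A' α = ∅ := if_neg h
      rw [this]
      exact Set.empty_subset _
  · unfold X
    rw [← current_congr σ hA']
    exact current_anti σ A' (p.hl.le.trans hγ)

end Pos

end

end Pool.Agent.W869.CC
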