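import Pool.Agent.W869.CC.Core
import Pool.Agent.W869.CC.Indep

/-!
# The ideal given by an independent family and a family of sets of a longer well-order
-/

set_option autoImplicit false

namespace Pool.Agent.W869.CC

open Cardinal

section
variable {K Idx Z : Type} [LinearOrder Z]

/-- the ideal -/
def JI (κ : Cardinal.{0}) (B : Idx → Set K) (D : Idx → Set Z) : Set (Set K) :=
  {Y | ∃ (A0 : Set Idx) (i0 : Z) (N : Set K), #A0 < κ ∧ #N < κ ∧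
    ∀ ξ ∈ Y, ξ ∉ N → ¬ ∃ x, i0 < x ∧ ∀ a ∈ A0, (ξ ∈ B a ↔ x ∈ D a)}

variable {κ : Cardinal.{0}} {B : Idx → Set K} {D : Idx → Set Z}

theorem JI_mono {X Y : Set K} (hX : X ∈ JI κ B D) (h : Y ⊆ X) : Y ∈ JI κ B D := by
  obtain ⟨A0, i0, N, h1, h2, h3⟩ := hX
  exact ⟨A0, i0, N, h1, h2, fun ξ hξ => h3 ξ (h hξ)⟩

theorem JI_iUnion {ι : Type} (hκ : κ.IsRegular) (hι : #ι < κ)
    (hb : ∀ f : ι → Z, ∃ b, ∀ j, f j ≤ b) {Y : ι → Set K} (hY : ∀ j, Y j ∈ JI κ B D) :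
    (⋃ j, Y j) ∈ JI κ B D := by
  choose A0 i0 N h1 h2 h3 using hY
  obtain ⟨b, hb'⟩ := hb i0
  refine ⟨⋃ j, A0 j, b, ⋃ j, N j, (card_iUnion_lt_iff_forall_of_isRegular hκ hι).2 h1,
    (card_iUnion_lt_iff_forall_of_isRegular hκ hι).2 h2, ?_⟩
  rintro ξ hξ hN ⟨x, hx1, hx2⟩
  obtain ⟨j, hj⟩ := Set.mem_iUnion.1 hξ
  exact h3 j ξ hj (fun h => hN (Set.mem_iUnion.2 ⟨j, h⟩))
    ⟨x, (hb' j).trans_lt hx1, fun a ha => hx2 a (Set.mem_iUnion.2 ⟨j, ha⟩)⟩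

theorem JI_small {X : Set K} [Nonempty Z] (hκ : κ.IsRegular) (hX : #X < κ) : X ∈ JI κ B D := by
  refine ⟨∅, Classical.arbitrary Z, X, ?_, hX, fun ξ hξ hN => absurd hξ hN⟩
  rw [Cardinal.mk_emptyCollection]
  exact Cardinal.aleph0_pos.trans_le hκ.aleph0_le

theorem JI_proper (hκ : κ.IsRegular) (hno : ∀ z : Z, ∃ z', z < z')
    (hB : ∀ A : Set Idx, #A < κ → ∀ E : Set Idx, κ ≤ #{ξ : K | ∀ a ∈ A, (ξ ∈ B a ↔ a ∈ E)}) :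
    Set.univ ∉ JI κ B D := by
  rintro ⟨A0, i0, N, h1, h2, h3⟩
  obtain ⟨x, hx⟩ := hno i0
  have h4 := hB A0 h1 {a | x ∈ D a}
  have h5 : ¬ ({ξ : K | ∀ a ∈ A0, (ξ ∈ B a ↔ a ∈ {a | x ∈ D a})} ⊆ N) := fun h =>
    absurd (h4.trans (Cardinal.mk_le_mk_of_subset h)) (not_le.2 h2)
  obtain ⟨ξ, h6, h7⟩ := Set.not_subset.1 h5
  exact h3 ξ (Set.mem_univ _) h7 ⟨x, hx, h6⟩

theorem JI_countable [Nonempty Z] (hκ : κ.IsRegular) (hκ' : ℵ₀ < κ) (s : Set Idx)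
    (hs : s.Countable) (hD : ¬ ∃ x, ∀ a ∈ s, x ∈ D a) : {ξ : K | ∀ a ∈ s, ξ ∈ B a} ∈ JI κ B D := by
  refine ⟨s, Classical.arbitrary Z, ∅, (Cardinal.le_aleph0_iff_set_countable.2 hs).trans_lt hκ',
    ?_, ?_⟩
  · rw [Cardinal.mk_emptyCollection]
    exact Cardinal.aleph0_pos.trans_le hκ.aleph0_le
  · rintro ξ hξ - ⟨x, -, hx⟩
    exact hD ⟨x, fun a ha => (hx a ha).1 (hξ a ha)⟩

theorem JI_pair [Nonempty Z] (hκ : κ.IsRegular) (hκ' : ℵ₀ < κ) (a b : Idx)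
    (hD : ∀ x, x ∈ D a ∨ x ∈ D b) : {ξ : K | ξ ∉ B a ∧ ξ ∉ B b} ∈ JI κ B D := by
  refine ⟨{a, b}, Classical.arbitrary Z, ∅,
    (Cardinal.le_aleph0_iff_set_countable.2 (Set.to_countable _)).trans_lt hκ', ?_, ?_⟩
  · rw [Cardinal.mk_emptyCollection]
    exact Cardinal.aleph0_pos.trans_le hκ.aleph0_le
  · rintro ξ ⟨h1, h2⟩ - ⟨x, -, hx⟩
    rcases hD x with h | h
    · exact h1 ((hx a (by simp)).2 h)
    · exact h2 ((hx b (by simp)).2 h)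

theorem JI_single (hκ : κ.IsRegular) (hκ' : ℵ₀ < κ) (a : Idx) (i : Z)
    (hD : ∀ x, i < x → x ∉ D a) : B a ∈ JI κ B D := by
  refine ⟨{a}, i, ∅,
    (Cardinal.le_aleph0_iff_set_countable.2 (Set.to_countable _)).trans_lt hκ', ?_, ?_⟩
  · rw [Cardinal.mk_emptyCollection]
    exact Cardinal.aleph0_pos.trans_le hκ.aleph0_le
  · rintro ξ h1 - ⟨x, hi, hx⟩
    exact hD x hi ((hx a rfl).1 h1)

end

end Pool.Agent.W869.CC
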